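import Mathlib

/-!
# The sieve function `σ_κ`: basic theory of the delay equation
-/

set_option autoImplicit false

namespace Pool.Agent.N704.VK

open MeasureTheory Set Filter Topology

/-- The function `σ_κ` of the problem, as a predicate. -/
structure IsSigma (κ : ℝ) (σ : ℝ → ℝ) : Prop where
  cont : ContinuousOn σ (Ioi 0)
  init : ∀ u : ℝ, 0 < u → u ≤ 2 →
    σ u = u ^ κ / ((2 * Real.exp Real.eulerMascheroniConstant) ^ κ * Real.Gamma (κ + 1))
  deriv : ∀ u : ℝ, 2 < u →
    HasDerivAt (fun t : ℝ => t ^ (-κ) * σ t) (-κ * u ^ (-κ - 1) * σ (u - 2)) u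

/-- Working form of the delay equation. -/
structure Sol (κ A : ℝ) (s : ℝ → ℝ) : Prop where
  hk : 1 ≤ κ
  hA : 0 < A
  nonpos : ∀ t : ℝ, t ≤ 0 → s t = 0
  cont : Continuous s
  form : ∀ t : ℝ, 0 < t →
    s t = t ^ κ * (A - ∫ x in (2 : ℝ)..t, κ * x ^ (-κ - 1) * s (x - 2))

variable {κ A : ℝ} {s : ℝ → ℝ}

theorem g_cont (κ : ℝ) {s : ℝ → ℝ} (hs : Continuous s) :
    ContinuousOn (fun x : ℝ => κ * x ^ (-κ - 1) * s (x - 2)) (Ioi 0) := by
  refine ContinuousOn.mul (ContinuousOn.mul continuousOn_const ?_) (by fun_prop)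
  exact ContinuousOn.rpow_const continuousOn_id fun x hx => Or.inl (ne_of_gt hx)

theorem g_int (κ : ℝ) {s : ℝ → ℝ} (hs : Continuous s) {a b : ℝ} (ha : 0 < a) (hb : 0 < b) :
    IntervalIntegrable (fun x : ℝ => κ * x ^ (-κ - 1) * s (x - 2)) volume a b := by
  refine ((g_cont κ hs).mono fun x hx => ?_).intervalIntegrable
  exact lt_of_lt_of_le (lt_min ha hb) hx.1

theorem Sol.init (h : Sol κ A s) {t : ℝ} (h0 : 0 < t) (h2 : t ≤ 2) : s t = A * t ^ κ := by
  rw [h.form t h0]
  have : ∫ x in (2 : ℝ)..t, κ * x ^ (-κ - 1) * s (x - 2) = 0 := by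
    have e : ∫ x in (2 : ℝ)..t, κ * x ^ (-κ - 1) * s (x - 2) = ∫ x in (2 : ℝ)..t, (0 : ℝ) := by
      refine intervalIntegral.integral_congr fun x hx => ?_
      rw [uIcc_of_ge h2] at hx
      have : s (x - 2) = 0 := h.nonpos _ (by linarith [hx.2])
      simp [this]
    rw [e]; simp
  rw [this]; ring

theorem Sol.der (h : Sol κ A s) {t : ℝ} (h0 : 0 < t) :
    HasDerivAt s (κ / t * (s t - s (t - 2))) t := by
  have h1 := intervalIntegral.integral_hasDerivAt_right (g_int κ h.cont (a := 2) (b := t)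
    (by norm_num) h0)
    ((g_cont κ h.cont).stronglyMeasurableAtFilter isOpen_Ioi t h0)
    ((g_cont κ h.cont).continuousAt (Ioi_mem_nhds h0))
  have h2 : HasDerivAt (fun t : ℝ => t ^ κ) (κ * t ^ (κ - 1)) t :=
    Real.hasDerivAt_rpow_const (Or.inl h0.ne')
  have h3 := h2.mul (h1.const_sub A)
  have h4 : HasDerivAt s (κ * t ^ (κ - 1) * (A - ∫ x in (2 : ℝ)..t, κ * x ^ (-κ - 1) * s (x - 2)) +
      t ^ κ * -(κ * t ^ (-κ - 1) * s (t - 2))) t := by
    refine h3.congr_of_eventuallyEq ?_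
    filter_upwards [Ioi_mem_nhds h0] with y hy
    exact h.form y hy
  refine h4.congr_deriv ?_
  have e1 : t ^ (κ - 1) = t ^ κ / t := by
    rw [Real.rpow_sub h0, Real.rpow_one]
  have e2 : t ^ κ * t ^ (-κ - 1) = 1 / t := by
    rw [← Real.rpow_add h0, show κ + (-κ - 1) = -1 by ring, Real.rpow_neg_one]
    simp
  rw [show κ * t ^ (κ - 1) * (A - ∫ x in (2 : ℝ)..t, κ * x ^ (-κ - 1) * s (x - 2)) =
    κ / t * (t ^ κ * (A - ∫ x in (2 : ℝ)..t, κ * x ^ (-κ - 1) * s (x - 2))) by rw [e1]; ring,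
    ← h.form t h0,
    show t ^ κ * -(κ * t ^ (-κ - 1) * s (t - 2)) = -κ * s (t - 2) * (t ^ κ * t ^ (-κ - 1)) by ring,
    e2]
  field_simp
  ring

theorem Sol.pos_small (h : Sol κ A s) {t : ℝ} (h0 : 0 < t) (h2 : t ≤ 2) : 0 < s t := by
  rw [h.init h0 h2]
  exact mul_pos h.hA (Real.rpow_pos_of_pos h0 κ)

/-- The difference `s(t) - s(t-2)` is positive. -/
theorem Sol.diff_pos (h : Sol κ A s) {t : ℝ} (h0 : 0 < t) : 0 < s t - s (t - 2) := by
  by_contra hcon
  set D : ℝ → ℝ := fun t => s t - s (t - 2) with hD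
  have hDc : Continuous D := by
    have := h.cont
    fun_prop
  have hsm : ∀ x : ℝ, 0 < x → x ≤ 2 → 0 < D x := by
    intro x hx hx2
    have : s (x - 2) = 0 := h.nonpos _ (by linarith)
    simp only [hD, this, sub_zero]
    exact h.pos_small hx hx2
  have ht2 : 2 < t := by
    by_contra hh
    exact hcon (hsm t h0 (not_lt.1 hh))
  let Z : Set ℝ := Icc 2 t ∩ D ⁻¹' Iic 0
  have hZc : IsCompact Z := isCompact_Icc.inter_right (isClosed_Iic.preimage hDc)
  have hZn : Z.Nonempty := ⟨t, ⟨ht2.le, le_rfl⟩, not_lt.1 hcon⟩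
  obtain ⟨t0, ht0, hmin⟩ := hZc.exists_isLeast hZn
  have ht02 : 2 < t0 := by
    rcases lt_or_eq_of_le ht0.1.1 with h' | h'
    · exact h'
    · exfalso
      have := hsm 2 (by norm_num) le_rfl
      rw [h'] at this
      exact absurd ht0.2 (not_le.2 this)
  have hpos : ∀ x : ℝ, 0 < x → x < t0 → 0 < D x := by
    intro x hx hxt
    rcases le_or_gt x 2 with h' | h'
    · exact hsm x hx h'
    · by_contra hc
      have : x ∈ Z := ⟨⟨h'.le, hxt.le.trans ht0.1.2⟩, not_lt.1 hc⟩
      exact absurd (hmin this) (not_le.2 hxt)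
  have hmono : StrictMonoOn s (Icc (t0 - 2) t0) := by
    refine strictMonoOn_of_deriv_pos (convex_Icc _ _) h.cont.continuousOn fun x hx => ?_
    rw [interior_Icc] at hx
    have hx0 : 0 < x := by linarith [hx.1]
    rw [(h.der hx0).deriv]
    have := hpos x hx0 hx.2
    have h1 := h.hk
    positivity
  have := hmono ⟨le_rfl, by linarith⟩ ⟨by linarith, le_rfl⟩ (by linarith : t0 - 2 < t0)
  have h3 : D t0 ≤ 0 := ht0.2
  simp only [hD] at h3
  linarith

theorem Sol.strictMono (h : Sol κ A s) : StrictMonoOn s (Ici 0) := by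
  refine strictMonoOn_of_deriv_pos (convex_Ici _) h.cont.continuousOn fun x hx => ?_
  rw [interior_Ici] at hx
  have hx0 : 0 < x := hx
  rw [(h.der hx0).deriv]
  have := h.diff_pos hx0
  have h1 := h.hk
  positivity

theorem Sol.pos (h : Sol κ A s) {t : ℝ} (h0 : 0 < t) : 0 < s t := by
  have := h.strictMono (a := 0) (b := t) (mem_Ici.2 le_rfl) h0.le h0
  rwa [h.nonpos 0 le_rfl] at this

theorem Sol.nonneg (h : Sol κ A s) (t : ℝ) : 0 ≤ s t := by
  rcases le_or_gt t 0 with h' | h'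
  · rw [h.nonpos t h']
  · exact (h.pos h').le

/-- `s(t) ≤ A t^κ`. -/
theorem Sol.le_pow (h : Sol κ A s) {t : ℝ} (h0 : 0 < t) : s t ≤ A * t ^ κ := by
  rcases le_or_gt t 2 with h2 | h2
  · exact (h.init h0 h2).le
  rw [h.form t h0]
  have : 0 ≤ ∫ x in (2 : ℝ)..t, κ * x ^ (-κ - 1) * s (x - 2) := by
    refine intervalIntegral.integral_nonneg h2.le fun x hx => ?_
    have h1 := h.hk
    have hx0 : 0 < x := by linarith [hx.1]
    have := h.nonneg (x - 2)
    positivity
  have h3 : 0 < t ^ κ := Real.rpow_pos_of_pos h0 κ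
  nlinarith

/-- The derivative of `s`, extended by `0`. -/
noncomputable def rr (κ : ℝ) (s : ℝ → ℝ) (t : ℝ) : ℝ :=
  (Ioi (0 : ℝ)).indicator (fun t => κ / t * (s t - s (t - 2))) t

theorem rr_pos_eq {t : ℝ} (h0 : 0 < t) : rr κ s t = κ / t * (s t - s (t - 2)) :=
  indicator_of_mem (show t ∈ Ioi (0 : ℝ) from h0) _

theorem rr_nonpos_eq {t : ℝ} (h0 : t ≤ 0) : rr κ s t = 0 :=
  indicator_of_notMem (show t ∉ Ioi (0 : ℝ) from not_lt.2 h0) _

theorem Sol.rr_pos (h : Sol κ A s) {t : ℝ} (h0 : 0 < t) : 0 < rr κ s t := by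
  rw [rr_pos_eq h0]
  have := h.diff_pos h0
  have h1 := h.hk
  positivity

theorem Sol.rr_nonneg (h : Sol κ A s) (t : ℝ) : 0 ≤ rr κ s t := by
  rcases le_or_gt t 0 with h' | h'
  · rw [rr_nonpos_eq h']
  · exact (h.rr_pos h').le

theorem Sol.rr_meas (h : Sol κ A s) : Measurable (rr κ s) := by
  refine Measurable.indicator ?_ measurableSet_Ioi
  have := h.cont.measurable
  have h2 : Measurable fun t : ℝ => s (t - 2) := this.comp (measurable_id.sub_const 2)
  exact (measurable_const.div measurable_id).mul (this.sub h2)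

theorem Sol.mul_rr (h : Sol κ A s) (t : ℝ) : t * rr κ s t = κ * (s t - s (t - 2)) := by
  rcases le_or_gt t 0 with h' | h'
  · rw [rr_nonpos_eq h', h.nonpos t h', h.nonpos (t - 2) (by linarith)]
    ring
  · rw [rr_pos_eq h']
    field_simp

theorem Sol.rr_der (h : Sol κ A s) {t : ℝ} (h0 : t ≠ 0) : HasDerivAt s (rr κ s t) t := by
  rcases lt_or_gt_of_ne h0 with h' | h'
  · rw [rr_nonpos_eq h'.le]
    refine (hasDerivAt_const t (0 : ℝ)).congr_of_eventuallyEq ?_
    filter_upwards [Iio_mem_nhds h'] with y hy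
    exact h.nonpos y (le_of_lt hy)
  · rw [rr_pos_eq h']
    exact h.der h'

theorem Sol.rr_le_pow (h : Sol κ A s) {t : ℝ} (h0 : 0 < t) : rr κ s t ≤ κ * A * t ^ (κ - 1) := by
  rw [rr_pos_eq h0]
  have h1 := h.le_pow h0
  have h2 := h.nonneg (t - 2)
  have hk := h.hk
  have e1 : t ^ (κ - 1) = t ^ κ / t := by
    rw [Real.rpow_sub h0, Real.rpow_one]
  rw [e1]
  calc κ / t * (s t - s (t - 2)) ≤ κ / t * (A * t ^ κ) := by
        refine mul_le_mul_of_nonneg_left (by linarith) (by positivity)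
    _ = κ * A * (t ^ κ / t) := by ring

theorem Sol.rr_small (h : Sol κ A s) {t : ℝ} (h0 : 0 < t) (h2 : t ≤ 2) :
    rr κ s t = κ * A * t ^ (κ - 1) := by
  rw [rr_pos_eq h0, h.init h0 h2, h.nonpos (t - 2) (by linarith)]
  have e1 : t ^ (κ - 1) = t ^ κ / t := by
    rw [Real.rpow_sub h0, Real.rpow_one]
  rw [e1]
  ring

/-- Local boundedness of `rr`. -/
theorem Sol.rr_bdd (h : Sol κ A s) {t T : ℝ} (hT : t ≤ T) (hT0 : 0 < T) :
    rr κ s t ≤ κ * A * T ^ (κ - 1) := by
  have hk := h.hk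
  have hA := h.hA
  rcases le_or_gt t 0 with h' | h'
  · rw [rr_nonpos_eq h']; positivity
  · refine (h.rr_le_pow h').trans ?_
    refine mul_le_mul_of_nonneg_left ?_ (by positivity)
    exact Real.rpow_le_rpow h'.le hT (by linarith)

theorem Sol.rr_intOn (h : Sol κ A s) (a b : ℝ) : IntervalIntegrable (rr κ s) volume a b := by
  have hk := h.hk
  have hA := h.hA
  rw [intervalIntegrable_iff]
  refine Measure.integrableOn_of_bounded (M := κ * A * (max (max a b) 1) ^ (κ - 1)) (by simp)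
    h.rr_meas.aestronglyMeasurable ?_
  refine (ae_restrict_iff' measurableSet_uIoc).2 (Eventually.of_forall fun t ht => ?_)
  rw [Real.norm_eq_abs, abs_of_nonneg (h.rr_nonneg t)]
  refine h.rr_bdd ?_ (by positivity)
  rw [uIoc] at ht
  exact ht.2.trans (le_max_left _ _)

theorem Sol.ftc (h : Sol κ A s) (a b : ℝ) : ∫ x in a..b, rr κ s x = s b - s a := by
  refine MeasureTheory.integral_eq_of_hasDerivAt_off_countable s (rr κ s) (s := {0})
    (countable_singleton 0) h.cont.continuousOn ?_ (h.rr_intOn a b)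
  intro x hx
  exact h.rr_der hx.2

theorem Sol.diff_eq (h : Sol κ A s) (t : ℝ) :
    s t - s (t - 2) = ∫ y in (0 : ℝ)..2, rr κ s (t - y) := by
  rw [intervalIntegral.integral_comp_sub_left (fun x => rr κ s x) t, h.ftc, sub_zero]

/-- Superexponential decay of the difference. -/
theorem Sol.diff_decay (h : Sol κ A s) (B : ℝ) (hB : 0 ≤ B) :
    ∃ C : ℝ, 0 < C ∧ ∀ t : ℝ, 0 ≤ t → s t - s (t - 2) ≤ C * Real.exp (-B * t) := by
  have hk := h.hk
  set f : ℝ → ℝ := fun t => Real.exp (B * t) * (s t - s (t - 2)) with hf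
  have hfc : Continuous f := by
    have := h.cont
    fun_prop
  set T : ℝ := 4 * κ * Real.exp (2 * B) + 2 with hT
  have hTp : 0 < T := by positivity
  obtain ⟨x0, hx0, hmax⟩ := isCompact_Icc.exists_isMaxOn (s := Icc 0 T) ⟨0, le_rfl, hTp.le⟩
    hfc.continuousOn
  have hM : ∀ t : ℝ, 0 ≤ t → f t ≤ f x0 := by
    intro t1 ht1
    by_contra hcon
    push Not at hcon
    have ht1T : T < t1 := by
      by_contra hh
      exact absurd (hmax ⟨ht1, not_lt.1 hh⟩) (not_le.2 hcon)
    obtain ⟨t2, ht2, hmax2⟩ := isCompact_Icc.exists_isMaxOn (s := Icc 0 t1) ⟨0, le_rfl, ht1⟩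
      hfc.continuousOn
    have hge : f t1 ≤ f t2 := hmax2 ⟨ht1, le_rfl⟩
    have ht2T : T < t2 := by
      by_contra hh
      have := hmax ⟨ht2.1, not_lt.1 hh⟩
      exact absurd (hge.trans this) (not_le.2 hcon)
    have ht20 : 0 < t2 := hTp.trans ht2T
    have hpos : 0 < f t2 := mul_pos (Real.exp_pos _) (h.diff_pos ht20)
    -- the integral bound
    have hb : ∀ y ∈ Icc (0 : ℝ) 2, rr κ s (t2 - y) ≤
        (κ / (t2 - 2)) * (Real.exp (-(B * (t2 - 2))) * f t2) := by
      intro y hy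
      have hp : 0 < t2 - y := by
        have : (2 : ℝ) ≤ T := by rw [hT]; have := Real.exp_pos (2 * B); nlinarith
        linarith [hy.2]
      have hp2 : 0 < t2 - 2 := by
        have : (2 : ℝ) ≤ T := by rw [hT]; have := Real.exp_pos (2 * B); nlinarith
        linarith
      rw [rr_pos_eq hp]
      have h1 : f (t2 - y) ≤ f t2 := hmax2 ⟨hp.le, by linarith [hy.1, ht2.2]⟩
      have h2 : s (t2 - y) - s (t2 - y - 2) = Real.exp (-(B * (t2 - y))) * f (t2 - y) := by
        simp only [hf]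
        rw [← mul_assoc, ← Real.exp_add]
        simp
      have h3 : Real.exp (-(B * (t2 - y))) ≤ Real.exp (-(B * (t2 - 2))) := by
        apply Real.exp_le_exp.2
        have : B * (t2 - 2) ≤ B * (t2 - y) := mul_le_mul_of_nonneg_left (by linarith [hy.2]) hB
        linarith
      rw [h2]
      have h4 : Real.exp (-(B * (t2 - y))) * f (t2 - y) ≤ Real.exp (-(B * (t2 - 2))) * f t2 := by
        have h5 : 0 ≤ f (t2 - y) := (mul_pos (Real.exp_pos _) (h.diff_pos hp)).le
        exact mul_le_mul h3 h1 h5 (Real.exp_pos _).le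
      have h6 : κ / (t2 - y) ≤ κ / (t2 - 2) :=
        div_le_div_of_nonneg_left (by linarith) hp2 (by linarith [hy.2])
      exact mul_le_mul h6 h4 (mul_nonneg (Real.exp_pos _).le
        (mul_pos (Real.exp_pos _) (h.diff_pos hp)).le) (by positivity)
    have hint : ∫ y in (0 : ℝ)..2, rr κ s (t2 - y) ≤ ∫ y in (0 : ℝ)..2,
        (κ / (t2 - 2)) * (Real.exp (-(B * (t2 - 2))) * f t2) := by
      refine intervalIntegral.integral_mono_on (by norm_num) ?_ (by simp) hb
      have hh := (h.rr_intOn (t2 - 0) (t2 - 2)).comp_sub_left t2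
      simpa using hh
    rw [← h.diff_eq t2, intervalIntegral.integral_const] at hint
    have hp2 : 0 < t2 - 2 := by
      have : (2 : ℝ) ≤ T := by rw [hT]; have := Real.exp_pos (2 * B); nlinarith
      linarith
    have h7 : f t2 ≤ Real.exp (B * t2) * ((2 - 0 : ℝ) • (κ / (t2 - 2) *
        (Real.exp (-(B * (t2 - 2))) * f t2))) := by
      simp only [hf] at hint ⊢
      exact mul_le_mul_of_nonneg_left hint (Real.exp_pos _).le
    have h8 : Real.exp (B * t2) * ((2 - 0 : ℝ) • (κ / (t2 - 2) *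
        (Real.exp (-(B * (t2 - 2))) * f t2))) = (2 * κ * Real.exp (2 * B) / (t2 - 2)) * f t2 := by
      have : Real.exp (B * t2) * Real.exp (-(B * (t2 - 2))) = Real.exp (2 * B) := by
        rw [← Real.exp_add]; congr 1; ring
      rw [← this, smul_eq_mul]
      ring
    rw [h8] at h7
    have h9 : 2 * κ * Real.exp (2 * B) / (t2 - 2) < 1 := by
      rw [div_lt_one hp2]
      have := Real.exp_pos (2 * B)
      have : 0 < κ * Real.exp (2 * B) := by positivity
      linarith
    nlinarith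
  refine ⟨f x0 + 1, ?_, fun t ht => ?_⟩
  · have : 0 ≤ f x0 := by
      have := hM 1 (by norm_num)
      exact le_trans (mul_pos (Real.exp_pos _) (h.diff_pos one_pos)).le this
    linarith
  · have h1 := hM t ht
    have h2 : s t - s (t - 2) = Real.exp (-B * t) * f t := by
      simp only [hf]
      rw [← mul_assoc, ← Real.exp_add]
      simp
    rw [h2, mul_comm]
    exact mul_le_mul_of_nonneg_right (by linarith) (Real.exp_pos _).le

/-- Superexponential decay of the derivative. -/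
theorem Sol.rr_decay (h : Sol κ A s) (B : ℝ) (hB : 0 ≤ B) :
    ∃ C : ℝ, 0 < C ∧ ∀ t : ℝ, rr κ s t ≤ C * Real.exp (-B * t) := by
  have hk := h.hk
  have hA := h.hA
  obtain ⟨C, hC, hb⟩ := h.diff_decay B hB
  refine ⟨κ * C + κ * A * Real.exp B, by positivity, fun t => ?_⟩
  have hE := Real.exp_pos (-B * t)
  rcases le_or_gt t 0 with h0 | h0
  · rw [rr_nonpos_eq h0]; positivity
  rcases le_or_gt t 1 with h1 | h1
  · have h2 := h.rr_bdd h1 one_pos
    rw [Real.one_rpow, mul_one] at h2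
    have h3 : 1 ≤ Real.exp B * Real.exp (-B * t) := by
      rw [← Real.exp_add]
      apply Real.one_le_exp
      nlinarith
    calc rr κ s t ≤ κ * A * 1 := by linarith
      _ ≤ κ * A * (Real.exp B * Real.exp (-B * t)) := by
          refine mul_le_mul_of_nonneg_left h3 (by positivity)
      _ ≤ _ := by
          have : 0 ≤ κ * C * Real.exp (-B * t) := by positivity
          linarith
  · rw [rr_pos_eq h0]
    have h2 := hb t h0.le
    have h3 : κ / t ≤ κ := div_le_self (by linarith) h1.le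
    have h4 := (h.diff_pos h0).le
    calc κ / t * (s t - s (t - 2)) ≤ κ * (C * Real.exp (-B * t)) :=
          mul_le_mul h3 h2 h4 (by linarith)
      _ ≤ _ := by
          have : 0 ≤ κ * A * Real.exp B * Real.exp (-B * t) := by positivity
          linarith

end Pool.Agent.N704.VK
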