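import Mathlib
import Pool.Agent.N704.VK.Basic
import Pool.Agent.Y445.JRB.Buch

/-!
# The exponential moments of `dσ_κ`
-/

set_option autoImplicit false

namespace Pool.Agent.N704.VK

open MeasureTheory Set Filter Topology

variable {κ A : ℝ} {s : ℝ → ℝ}

theorem supp_sub (n : ℕ) (θ : ℝ) (κ : ℝ) (s : ℝ → ℝ) :
    Function.support (fun t : ℝ => t ^ n * Real.exp (θ * t) * rr κ s t) ⊆ Ioi 0 := by
  intro t ht
  by_contra hc
  exact ht (by simp [rr_nonpos_eq (not_lt.1 hc)])

theorem Sol.int (h : Sol κ A s) (n : ℕ) (θ : ℝ) :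
    Integrable (fun t : ℝ => t ^ n * Real.exp (θ * t) * rr κ s t) := by
  rw [← integrableOn_iff_integrable_of_support_subset (supp_sub n θ κ s)]
  obtain ⟨C, hC, hb⟩ := h.rr_decay (|θ| + 1) (by positivity)
  have h1 := (Real.GammaIntegral_convergent (s := (n : ℝ) + 1) (by positivity)).const_mul C
  refine h1.mono' ?_ ?_
  · exact (Continuous.aestronglyMeasurable (by fun_prop)).mul h.rr_meas.aestronglyMeasurable
  · refine (ae_restrict_iff' measurableSet_Ioi).2 (Eventually.of_forall fun t ht => ?_)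
    have ht0 : (0 : ℝ) < t := ht
    have e1 : t ^ ((n : ℝ) + 1 - 1) = t ^ n := by
      rw [add_sub_cancel_right, Real.rpow_natCast]
    rw [e1, Real.norm_eq_abs, abs_of_nonneg (by have := h.rr_nonneg t; positivity)]
    calc t ^ n * Real.exp (θ * t) * rr κ s t
        ≤ t ^ n * Real.exp (θ * t) * (C * Real.exp (-(|θ| + 1) * t)) :=
          mul_le_mul_of_nonneg_left (hb t) (by positivity)
      _ = C * (t ^ n * Real.exp (θ * t + (-(|θ| + 1) * t))) := by
          rw [Real.exp_add]; ring
      _ ≤ C * (t ^ n * Real.exp (-t)) := by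
          refine mul_le_mul_of_nonneg_left ?_ hC.le
          refine mul_le_mul_of_nonneg_left (Real.exp_le_exp.2 ?_) (by positivity)
          have := le_abs_self θ
          nlinarith
      _ = _ := by ring

/-- The moments. -/
noncomputable def Gn (κ : ℝ) (s : ℝ → ℝ) (n : ℕ) (θ : ℝ) : ℝ :=
  ∫ t : ℝ, t ^ n * Real.exp (θ * t) * rr κ s t

theorem Sol.Gn_deriv (h : Sol κ A s) (n : ℕ) (θ : ℝ) :
    HasDerivAt (Gn κ s n) (Gn κ s (n + 1) θ) θ := by
  refine (hasDerivAt_integral_of_dominated_loc_of_deriv_le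
    (F := fun θ t => t ^ n * Real.exp (θ * t) * rr κ s t)
    (F' := fun θ t => t ^ (n + 1) * Real.exp (θ * t) * rr κ s t)
    (bound := fun t => t ^ (n + 1) * Real.exp ((|θ| + 1) * t) * rr κ s t)
    (s := Metric.ball θ 1) (Metric.ball_mem_nhds θ one_pos) ?_ (h.int n θ) ?_ ?_
    (h.int (n + 1) _) ?_).2
  · exact Eventually.of_forall fun x => (h.int n x).1
  · exact (h.int (n + 1) θ).1
  · refine Eventually.of_forall fun t x hx => ?_
    rcases le_or_gt t 0 with h0 | h0
    · simp [rr_nonpos_eq h0]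
    · rw [Real.norm_eq_abs, abs_of_nonneg (by have := h.rr_nonneg t; positivity)]
      refine mul_le_mul_of_nonneg_right ?_ (h.rr_nonneg t)
      refine mul_le_mul_of_nonneg_left (Real.exp_le_exp.2 ?_) (by positivity)
      rw [Metric.mem_ball, Real.dist_eq] at hx
      have h1 := (abs_lt.1 hx).2
      have h2 := le_abs_self θ
      exact mul_le_mul_of_nonneg_right (by linarith) h0.le
  · refine Eventually.of_forall fun t x hx => ?_
    have h1 : HasDerivAt (fun x : ℝ => Real.exp (x * t)) (Real.exp (x * t) * (1 * t)) x :=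
      ((hasDerivAt_id x).mul_const t).exp
    refine ((h1.const_mul (t ^ n)).mul_const (rr κ s t)).congr_deriv ?_
    ring

/-- `φ(θ) = ∫_0^2 e^{θ y} dy`. -/
noncomputable def ph (θ : ℝ) : ℝ := ∫ y in (0 : ℝ)..2, Real.exp (θ * y)

theorem ph_cont : Continuous ph := by
  refine intervalIntegral.continuous_parametric_intervalIntegral_of_continuous'
    (f := fun θ y : ℝ => Real.exp (θ * y)) ?_ 0 2
  fun_prop

theorem ph_eq {θ : ℝ} (h : θ ≠ 0) : ph θ = (Real.exp (2 * θ) - 1) / θ := by
  have : ∀ y ∈ uIcc (0 : ℝ) 2, HasDerivAt (fun y => Real.exp (θ * y) / θ) (Real.exp (θ * y)) y := by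
    intro y _
    have h1 : HasDerivAt (fun y : ℝ => Real.exp (θ * y)) (Real.exp (θ * y) * (θ * 1)) y :=
      ((hasDerivAt_id y).const_mul θ).exp
    refine (h1.div_const θ).congr_deriv ?_
    field_simp
  rw [ph, intervalIntegral.integral_eq_sub_of_hasDerivAt this
    (Continuous.intervalIntegrable (by fun_prop) _ _)]
  rw [mul_zero, Real.exp_zero, mul_comm θ 2]
  ring

/-- The differential equation of the moment generating function. -/
theorem Sol.ode (h : Sol κ A s) (θ : ℝ) : Gn κ s 1 θ = κ * ph θ * Gn κ s 0 θ := by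
  have hf : Integrable ((Ioc (0 : ℝ) 2).indicator fun y => Real.exp (θ * y)) := by
    rw [integrable_indicator_iff measurableSet_Ioc]
    exact (Continuous.integrableOn_Icc (by fun_prop)).mono_set Ioc_subset_Icc_self
  have hg : Integrable (fun t : ℝ => Real.exp (θ * t) * rr κ s t) := by
    have := h.int 0 θ
    simpa using this
  have h1 := integral_convolution (ContinuousLinearMap.mul ℝ ℝ) (μ := volume) (ν := volume) hf hg
  have h2 : ∀ x : ℝ, convolution ((Ioc (0 : ℝ) 2).indicator fun y => Real.exp (θ * y))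
      (fun t : ℝ => Real.exp (θ * t) * rr κ s t) (ContinuousLinearMap.mul ℝ ℝ) volume x =
      Real.exp (θ * x) * (s x - s (x - 2)) := by
    intro x
    rw [h.diff_eq x, intervalIntegral.integral_of_le (by norm_num), ← integral_const_mul,
      ← integral_indicator measurableSet_Ioc, convolution_def]
    refine integral_congr_ae (Eventually.of_forall fun t => ?_)
    simp only [ContinuousLinearMap.mul_apply']
    by_cases ht : t ∈ Ioc (0 : ℝ) 2
    · rw [indicator_of_mem ht, indicator_of_mem ht, ← mul_assoc, ← Real.exp_add]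
      congr 2
      ring
    · rw [indicator_of_notMem ht, indicator_of_notMem ht, zero_mul]
  simp_rw [h2] at h1
  rw [integral_indicator measurableSet_Ioc] at h1
  simp only [ContinuousLinearMap.mul_apply'] at h1
  rw [← intervalIntegral.integral_of_le (by norm_num)] at h1
  have e1 : Gn κ s 1 θ = κ * ∫ x, Real.exp (θ * x) * (s x - s (x - 2)) := by
    rw [Gn, ← integral_const_mul]
    refine integral_congr_ae (Eventually.of_forall fun t => ?_)
    have := h.mul_rr t
    simp only [pow_one]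
    rw [show t * Real.exp (θ * t) * rr κ s t = Real.exp (θ * t) * (t * rr κ s t) by ring, this]
    ring
  have e2 : Gn κ s 0 θ = ∫ t, Real.exp (θ * t) * rr κ s t := by
    simp [Gn]
  rw [e1, e2, h1, ph]
  ring

/-- The primitive of `φ`. -/
noncomputable def Ph (θ : ℝ) : ℝ := ∫ x in (0 : ℝ)..θ, ph x

theorem Ph_zero : Ph 0 = 0 := by simp [Ph]

theorem Ph_deriv (θ : ℝ) : HasDerivAt Ph (ph θ) θ :=
  intervalIntegral.integral_hasDerivAt_right (ph_cont.intervalIntegrable _ _)
    (ph_cont.stronglyMeasurableAtFilter _ _) ph_cont.continuousAt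

theorem Sol.G_eq (h : Sol κ A s) (θ : ℝ) :
    Gn κ s 0 θ = Gn κ s 0 0 * Real.exp (κ * Ph θ) := by
  have hd : ∀ x : ℝ, HasDerivAt (fun θ => Gn κ s 0 θ * Real.exp (-(κ * Ph θ))) 0 x := by
    intro x
    have h1 := (h.Gn_deriv 0 x).mul (((Ph_deriv x).const_mul κ).neg.exp)
    refine h1.congr_deriv ?_
    rw [zero_add, h.ode x]
    ring
  have := is_const_of_deriv_eq_zero (fun x => (hd x).differentiableAt) (fun x => (hd x).deriv) θ 0
  simp only [Ph_zero, mul_zero, neg_zero, Real.exp_zero, mul_one] at this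
  rw [← this, mul_assoc, ← Real.exp_add]
  simp

theorem Ph_neg {x : ℝ} (hx : 0 < x) :
    Ph (-x) + Real.log x + Pool.Agent.Y445.JRB.K (2 * x) =
      -Real.eulerMascheroniConstant - Real.log 2 := by
  set F : ℝ → ℝ := fun x => Ph (-x) + Real.log x + Pool.Agent.Y445.JRB.K (2 * x) with hF
  have hd : ∀ x : ℝ, 0 < x → HasDerivAt F 0 x := by
    intro x hx
    have h1 : HasDerivAt (fun x => Ph (-x)) (ph (-x) * (-1)) x :=
      (Ph_deriv (-x)).comp x (hasDerivAt_neg x)
    have h2 := Real.hasDerivAt_log hx.ne'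
    have h3 : HasDerivAt (fun x => Pool.Agent.Y445.JRB.K (2 * x))
        (-(Real.exp (-(2 * x)) / (2 * x)) * (2 * 1)) x :=
      (Pool.Agent.Y445.JRB.hasDerivAt_K (by positivity : 0 < 2 * x)).comp x
        ((hasDerivAt_id x).const_mul 2)
    refine ((h1.add h2).add h3).congr_deriv ?_
    rw [ph_eq (by linarith : -x ≠ 0)]
    rw [show 2 * -x = -(2 * x) by ring]
    field_simp
    ring
  have hconst : ∀ y : ℝ, 0 < y → F x = F y := by
    intro y hy
    have := (convex_Ioi (0 : ℝ)).is_const_of_fderivWithin_eq_zero (𝕜 := ℝ)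
      (f := F)
      (fun z hz => (hd z hz).differentiableAt.differentiableWithinAt)
      (fun z hz => by
        have h := (hd z hz).hasFDerivAt.hasFDerivWithinAt (s := Ioi 0)
        rw [h.fderivWithin (isOpen_Ioi.uniqueDiffWithinAt hz)]
        ext
        simp) hx hy
    exact this
  have hlim : Tendsto F (𝓝[>] 0) (𝓝 (-Real.eulerMascheroniConstant - Real.log 2)) := by
    have h1 : Tendsto (fun x => Ph (-x)) (𝓝[>] 0) (𝓝 0) := by
      have hc : Continuous Ph := continuous_iff_continuousAt.2 fun x => (Ph_deriv x).continuousAt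
      have := (hc.comp continuous_neg).tendsto 0
      simp only [Function.comp, neg_zero, Ph_zero] at this
      exact this.mono_left nhdsWithin_le_nhds
    have h2 : Tendsto (fun x : ℝ => 2 * x) (𝓝[>] 0) (𝓝[>] 0) := by
      refine tendsto_nhdsWithin_iff.2 ⟨?_, ?_⟩
      · have : Continuous fun x : ℝ => 2 * x := by fun_prop
        have := this.tendsto 0
        rw [mul_zero] at this
        exact this.mono_left nhdsWithin_le_nhds
      · filter_upwards [self_mem_nhdsWithin] with y hy
        have : (0 : ℝ) < y := hy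
        show (0 : ℝ) < 2 * y
        positivity
    have h3 := (Pool.Agent.Y445.JRB.K_zero.comp h2).sub_const (Real.log 2)
    have h4 := h1.add h3
    rw [zero_add] at h4
    refine h4.congr' ?_
    filter_upwards [self_mem_nhdsWithin] with y hy
    have hy0 : (0 : ℝ) < y := hy
    simp only [hF, Function.comp]
    rw [Real.log_mul (by norm_num) hy0.ne']
    ring
  have hc2 : Tendsto F (𝓝[>] 0) (𝓝 (F x)) := by
    refine tendsto_const_nhds.congr' ?_
    filter_upwards [self_mem_nhdsWithin] with y hy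
    exact hconst y hy
  exact tendsto_nhds_unique hc2 hlim

theorem Gn_zero_eq (κ : ℝ) (s : ℝ → ℝ) (θ : ℝ) :
    Gn κ s 0 θ = ∫ t in Ioi (0 : ℝ), Real.exp (θ * t) * rr κ s t := by
  rw [Gn, ← setIntegral_eq_integral_of_forall_compl_eq_zero (s := Ioi (0 : ℝ))]
  · refine setIntegral_congr_fun measurableSet_Ioi fun t _ => ?_
    simp
  · intro t ht
    simp [rr_nonpos_eq (not_lt.1 ht)]

/-- The behaviour of the Laplace transform at infinity. -/
theorem Sol.lim_inf (h : Sol κ A s) :
    Tendsto (fun x : ℝ => x ^ κ * Gn κ s 0 (-x)) atTop (𝓝 (κ * A * Real.Gamma κ)) := by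
  have hk := h.hk
  have hk0 : 0 < κ := by linarith
  have hA := h.hA
  have hGa : 0 < Real.Gamma κ := Real.Gamma_pos_of_pos hk0
  have hint : ∀ x : ℝ, 0 < x → IntegrableOn (fun t : ℝ => t ^ (κ - 1) * Real.exp (-(x * t))) (Ioi 0) := by
    intro x hx
    have := integrableOn_rpow_mul_exp_neg_mul_rpow (s := κ - 1) (p := 1) (b := x) (by linarith)
      (by norm_num) hx
    refine this.congr_fun (fun t _ => ?_) measurableSet_Ioi
    simp
  have hup : ∀ x : ℝ, 0 < x → Gn κ s 0 (-x) ≤ κ * A * ((1 / x) ^ κ * Real.Gamma κ) := by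
    intro x hx
    rw [← Real.integral_rpow_mul_exp_neg_mul_Ioi hk0 hx, Gn_zero_eq, ← integral_const_mul]
    refine setIntegral_mono_on ?_ ((hint x hx).const_mul _) measurableSet_Ioi fun t ht => ?_
    · have := (h.int 0 (-x)).integrableOn (s := Ioi 0)
      simpa using this
    · have ht0 : (0 : ℝ) < t := ht
      have := h.rr_le_pow ht0
      rw [neg_mul]
      have hE := Real.exp_pos (-(x * t))
      nlinarith
  have hlo : ∀ x : ℝ, 1 ≤ x → κ * A * ((1 / x) ^ κ * Real.Gamma κ) -
      κ * A * (Real.exp (-(2 * (x - 1))) * Real.Gamma κ) ≤ Gn κ s 0 (-x) := by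
    intro x hx
    have hx0 : 0 < x := by linarith
    have h1 : κ * A * (Real.exp (-(2 * (x - 1))) * Real.Gamma κ) =
        ∫ t in Ioi (0 : ℝ), κ * A * Real.exp (-(2 * (x - 1))) * (t ^ (κ - 1) * Real.exp (-(1 * t))) := by
      rw [integral_const_mul, Real.integral_rpow_mul_exp_neg_mul_Ioi hk0 one_pos]
      simp
      ring
    have h2 : κ * A * ((1 / x) ^ κ * Real.Gamma κ) =
        ∫ t in Ioi (0 : ℝ), κ * A * (t ^ (κ - 1) * Real.exp (-(x * t))) := by
      rw [integral_const_mul, Real.integral_rpow_mul_exp_neg_mul_Ioi hk0 hx0]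
    rw [h1, h2, ← integral_sub ((hint x hx0).const_mul _) ((hint 1 one_pos).const_mul _), Gn_zero_eq]
    refine setIntegral_mono_on (((hint x hx0).const_mul _).sub ((hint 1 one_pos).const_mul _)) ?_
      measurableSet_Ioi fun t ht => ?_
    · have := (h.int 0 (-x)).integrableOn (s := Ioi 0)
      simpa using this
    · have ht0 : (0 : ℝ) < t := ht
      rcases le_or_gt t 2 with h2' | h2'
      · rw [h.rr_small ht0 h2', neg_mul]
        have : 0 ≤ κ * A * Real.exp (-(2 * (x - 1))) * (t ^ (κ - 1) * Real.exp (-(1 * t))) := by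
          positivity
        linarith
      · have h3 : Real.exp (-(x * t)) ≤ Real.exp (-(2 * (x - 1))) * Real.exp (-(1 * t)) := by
          rw [← Real.exp_add]
          apply Real.exp_le_exp.2
          nlinarith
        have h4 : 0 ≤ Real.exp (-x * t) * rr κ s t := mul_nonneg (Real.exp_pos _).le (h.rr_nonneg t)
        have h5 : 0 < t ^ (κ - 1) := Real.rpow_pos_of_pos ht0 _
        have h6 : κ * A * (t ^ (κ - 1) * Real.exp (-(x * t))) ≤
            κ * A * (t ^ (κ - 1) * (Real.exp (-(2 * (x - 1))) * Real.exp (-(1 * t)))) := by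
          refine mul_le_mul_of_nonneg_left ?_ (by positivity)
          exact mul_le_mul_of_nonneg_left h3 h5.le
        linarith
  have hpow : ∀ x : ℝ, 0 < x → x ^ κ * (1 / x) ^ κ = 1 := by
    intro x hx
    rw [← Real.mul_rpow hx.le (by positivity)]
    rw [mul_one_div_cancel hx.ne', Real.one_rpow]
  have hz : Tendsto (fun x : ℝ => x ^ κ * (κ * A * (Real.exp (-(2 * (x - 1))) * Real.Gamma κ)))
      atTop (𝓝 0) := by
    have h1 := tendsto_rpow_mul_exp_neg_mul_atTop_nhds_zero κ 2 (by norm_num)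
    have h2 := h1.const_mul (κ * A * Real.Gamma κ * Real.exp 2)
    rw [mul_zero] at h2
    refine h2.congr fun x => ?_
    rw [show -(2 * (x - 1)) = 2 + -2 * x by ring, Real.exp_add]
    ring
  have hlow := (tendsto_const_nhds (x := κ * A * Real.Gamma κ) (f := (atTop : Filter ℝ))).sub hz
  rw [sub_zero] at hlow
  refine tendsto_of_tendsto_of_tendsto_of_le_of_le' hlow tendsto_const_nhds ?_ ?_
  · filter_upwards [eventually_ge_atTop 1] with x hx
    have hx0 : 0 < x := by linarith
    have := mul_le_mul_of_nonneg_left (hlo x hx) (Real.rpow_pos_of_pos hx0 κ).le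
    have e := hpow x hx0
    calc κ * A * Real.Gamma κ - x ^ κ * (κ * A * (Real.exp (-(2 * (x - 1))) * Real.Gamma κ))
        = (x ^ κ * (1 / x) ^ κ) * (κ * A * Real.Gamma κ) -
          x ^ κ * (κ * A * (Real.exp (-(2 * (x - 1))) * Real.Gamma κ)) := by rw [e, one_mul]
      _ = x ^ κ * (κ * A * ((1 / x) ^ κ * Real.Gamma κ) -
          κ * A * (Real.exp (-(2 * (x - 1))) * Real.Gamma κ)) := by ring
      _ ≤ _ := this
  · filter_upwards [eventually_ge_atTop 1] with x hx
    have hx0 : 0 < x := by linarith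
    have := mul_le_mul_of_nonneg_left (hup x hx0) (Real.rpow_pos_of_pos hx0 κ).le
    have e := hpow x hx0
    calc x ^ κ * Gn κ s 0 (-x) ≤ x ^ κ * (κ * A * ((1 / x) ^ κ * Real.Gamma κ)) := this
      _ = (x ^ κ * (1 / x) ^ κ) * (κ * A * Real.Gamma κ) := by ring
      _ = _ := by rw [e, one_mul]

/-- The normalising constant. -/
noncomputable def AA (κ : ℝ) : ℝ :=
  1 / ((2 * Real.exp Real.eulerMascheroniConstant) ^ κ * Real.Gamma (κ + 1))

/-- With the normalising constant of the problem the total mass is `1`. -/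
theorem Sol.total (h : Sol κ (AA κ) s) : Gn κ s 0 0 = 1 := by
  have hk := h.hk
  have hk0 : 0 < κ := by linarith
  have h1 := h.lim_inf
  set b : ℝ := 2 * Real.exp Real.eulerMascheroniConstant with hb
  have hbp : 0 < b := by positivity
  have hGa : 0 < Real.Gamma κ := Real.Gamma_pos_of_pos hk0
  have e1 : κ * AA κ * Real.Gamma κ = (b ^ κ)⁻¹ := by
    rw [AA, Real.Gamma_add_one hk0.ne', ← hb]
    have : 0 < b ^ κ := Real.rpow_pos_of_pos hbp κ
    field_simp
  rw [e1] at h1
  have h2 : Tendsto (fun x : ℝ => x ^ κ * Gn κ s 0 (-x)) atTop (𝓝 (Gn κ s 0 0 * (b ^ κ)⁻¹)) := by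
    have hK : Tendsto (fun x : ℝ => Pool.Agent.Y445.JRB.K (2 * x)) atTop (𝓝 0) :=
      Pool.Agent.Y445.JRB.K_atTop.comp (tendsto_id.const_mul_atTop (by norm_num))
    have hK2 : Tendsto (fun x : ℝ => Gn κ s 0 0 * (b ^ κ)⁻¹ *
        Real.exp (-(κ * Pool.Agent.Y445.JRB.K (2 * x)))) atTop (𝓝 (Gn κ s 0 0 * (b ^ κ)⁻¹)) := by
      have := ((Real.continuous_exp.tendsto _).comp (hK.const_mul κ).neg).const_mul
        (Gn κ s 0 0 * (b ^ κ)⁻¹)
      simpa using this
    refine hK2.congr' ?_
    filter_upwards [eventually_gt_atTop 0] with x hx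
    rw [h.G_eq (-x)]
    have e2 : Ph (-x) = -Real.log x - Pool.Agent.Y445.JRB.K (2 * x) -
        Real.eulerMascheroniConstant - Real.log 2 := by
      have := Ph_neg hx
      linarith
    have e3 : Real.exp (κ * Ph (-x)) = (x ^ κ)⁻¹ * (b ^ κ)⁻¹ *
        Real.exp (-(κ * Pool.Agent.Y445.JRB.K (2 * x))) := by
      rw [← Real.rpow_neg hx.le, ← Real.rpow_neg hbp.le, Real.rpow_def_of_pos hx,
        Real.rpow_def_of_pos hbp, ← Real.exp_add, ← Real.exp_add, e2, hb,
        Real.log_mul (by norm_num) (Real.exp_pos _).ne', Real.log_exp]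
      congr 1
      ring
    rw [e3]
    have : 0 < x ^ κ := Real.rpow_pos_of_pos hx κ
    field_simp
  have h3 := tendsto_nhds_unique h1 h2
  have hp : 0 < (b ^ κ)⁻¹ := inv_pos.2 (Real.rpow_pos_of_pos hbp κ)
  have h4 : (1 : ℝ) * (b ^ κ)⁻¹ = Gn κ s 0 0 * (b ^ κ)⁻¹ := by rw [one_mul]; exact h3
  exact (mul_right_cancel₀ hp.ne' h4).symm

end Pool.Agent.N704.VK
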