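import Mathlib
import Pool.Agent.N704.VK.Mgf

/-!
# The lower sieve function `η_κ`
-/

set_option autoImplicit false

namespace Pool.Agent.N704.VK

open MeasureTheory Set Filter Topology

variable {κ A : ℝ} {s : ℝ → ℝ}

theorem Sol.rr_integrable (h : Sol κ A s) : Integrable (rr κ s) := by
  have := h.int 0 0
  simpa using this

theorem Sol.integral_Ioi_zero (h : Sol κ (AA κ) s) : ∫ x in Ioi (0 : ℝ), rr κ s x = 1 := by
  have := Gn_zero_eq κ s 0
  rw [h.total] at this
  simpa using this.symm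

theorem Sol.lim_one (h : Sol κ (AA κ) s) : Tendsto s atTop (𝓝 1) := by
  have h1 := intervalIntegral_tendsto_integral_Ioi (μ := volume) (f := rr κ s) 0
    h.rr_integrable.integrableOn tendsto_id
  rw [h.integral_Ioi_zero] at h1
  refine h1.congr fun x => ?_
  simp only [id]
  rw [h.ftc, h.nonpos 0 le_rfl, sub_zero]

theorem Sol.tail (h : Sol κ (AA κ) s) (t : ℝ) : 1 - s t = ∫ x in Ioi t, rr κ s x := by
  have h1 := intervalIntegral_tendsto_integral_Ioi (μ := volume) (f := rr κ s) t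
    h.rr_integrable.integrableOn tendsto_id
  have h2 : Tendsto (fun x => s x - s t) atTop (𝓝 (1 - s t)) := h.lim_one.sub_const _
  refine tendsto_nhds_unique h2 (h1.congr fun x => ?_)
  simp only [id]
  rw [h.ftc]

theorem Sol.le_one (h : Sol κ (AA κ) s) (t : ℝ) : s t ≤ 1 := by
  have h1 := h.tail t
  have h2 : 0 ≤ ∫ x in Ioi t, rr κ s x := integral_nonneg fun x => h.rr_nonneg x
  linarith

theorem Sol.lt_one (h : Sol κ (AA κ) s) (t : ℝ) : s t < 1 := by
  rcases le_or_gt t 0 with h0 | h0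
  · rw [h.nonpos t h0]; norm_num
  · have h1 := h.strictMono (a := t) (b := t + 1) h0.le (by
      show (0 : ℝ) ≤ t + 1
      linarith) (by linarith)
    exact h1.trans_le (h.le_one _)

theorem Sol.markov (h : Sol κ (AA κ) s) {θ : ℝ} (hθ : 0 ≤ θ) (t : ℝ) :
    1 - s t ≤ Real.exp (-(θ * t)) * Gn κ s 0 θ := by
  have hi : Integrable (fun x : ℝ => Real.exp (θ * x) * rr κ s x) := by
    have := h.int 0 θ
    simpa using this
  have e : Gn κ s 0 θ = ∫ x, Real.exp (θ * x) * rr κ s x := by simp [Gn]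
  rw [h.tail t, e, ← integral_const_mul]
  have h1 : ∫ x in Ioi t, rr κ s x ≤
      ∫ x in Ioi t, Real.exp (-(θ * t)) * (Real.exp (θ * x) * rr κ s x) := by
    refine setIntegral_mono_on h.rr_integrable.integrableOn (hi.const_mul _).integrableOn
      measurableSet_Ioi fun x hx => ?_
    rw [← mul_assoc, ← Real.exp_add]
    have : 1 ≤ Real.exp (-(θ * t) + θ * x) := by
      apply Real.one_le_exp
      have : θ * t ≤ θ * x := mul_le_mul_of_nonneg_left (le_of_lt hx) hθ
      linarith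
    have h2 := h.rr_nonneg x
    nlinarith
  refine h1.trans ?_
  refine setIntegral_le_integral (hi.const_mul _) (Eventually.of_forall fun x => ?_)
  exact mul_nonneg (Real.exp_pos _).le (mul_nonneg (Real.exp_pos _).le (h.rr_nonneg x))

/-- The lower sieve function. -/
noncomputable def eta (κ : ℝ) (σ : ℝ → ℝ) (u : ℝ) : ℝ :=
  κ * u ^ (-κ) * ∫ t in Ioi u, t ^ (κ - 1) * (1 / σ (t - 1) - 1)

theorem powexp_int (a : ℝ) (ha : 0 < a) (c : ℝ) {u : ℝ} (hu : 0 ≤ u) :
    IntegrableOn (fun t : ℝ => t ^ (a - 1) * (c * Real.exp (-(t - 1)))) (Ioi u) := by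
  have h0 : IntegrableOn (fun x : ℝ => c * Real.exp 1 * (Real.exp (-x) * x ^ (a - 1))) (Ioi 0) :=
    (Real.GammaIntegral_convergent ha).const_mul (c * Real.exp 1)
  have h1 := h0.mono_set (Ioi_subset_Ioi hu)
  refine h1.congr_fun (fun t _ => ?_) measurableSet_Ioi
  simp only
  rw [show -(t - 1) = 1 + -t by ring, Real.exp_add]
  ring

theorem Sol.eta_int (h : Sol κ (AA κ) s) {u : ℝ} (hu : 1 < u) :
    IntegrableOn (fun t : ℝ => t ^ (κ - 1) * (1 / s (t - 1) - 1)) (Ioi u) := by
  have hk := h.hk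
  have hsu : 0 < s (u - 1) := h.pos (by linarith)
  have h1 := powexp_int κ (by linarith) (1 / s (u - 1) * Gn κ s 0 1) (u := u) (by linarith)
  refine h1.mono' ?_ ?_
  · have hm : Measurable fun t : ℝ => t ^ (κ - 1) * (1 / s (t - 1) - 1) := by
      have h2 : Measurable fun t : ℝ => s (t - 1) :=
        h.cont.measurable.comp (measurable_id.sub_const 1)
      exact (measurable_id.pow_const (κ - 1)).mul ((measurable_const.div h2).sub_const 1)
    exact hm.aestronglyMeasurable
  · refine (ae_restrict_iff' measurableSet_Ioi).2 (Eventually.of_forall fun t ht => ?_)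
    have htu : u < t := ht
    have ht0 : 0 < t := by linarith
    have hst : 0 < s (t - 1) := h.pos (by linarith)
    have hle := h.le_one (t - 1)
    have hmk := h.markov (θ := 1) zero_le_one (t - 1)
    have hmon : s (u - 1) ≤ s (t - 1) :=
      h.strictMono.monotoneOn (show (0 : ℝ) ≤ u - 1 by linarith) (show (0 : ℝ) ≤ t - 1 by linarith)
        (by linarith)
    have e : 1 / s (t - 1) - 1 = (1 / s (t - 1)) * (1 - s (t - 1)) := by field_simp
    have h0 : 0 ≤ 1 / s (t - 1) - 1 := by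
      rw [e]
      exact mul_nonneg (by positivity) (by linarith)
    rw [Real.norm_eq_abs, abs_of_nonneg (mul_nonneg (Real.rpow_nonneg ht0.le _) h0)]
    refine mul_le_mul_of_nonneg_left ?_ (Real.rpow_nonneg ht0.le _)
    rw [e]
    have h3 : 1 / s (t - 1) ≤ 1 / s (u - 1) := one_div_le_one_div_of_le hsu hmon
    calc (1 / s (t - 1)) * (1 - s (t - 1))
        ≤ (1 / s (u - 1)) * (Real.exp (-(1 * (t - 1))) * Gn κ s 0 1) :=
          mul_le_mul h3 hmk (by linarith) (by positivity)
      _ = _ := by rw [one_mul]; ring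

theorem Sol.hh_pos (h : Sol κ (AA κ) s) {t : ℝ} (ht : 1 < t) :
    0 < t ^ (κ - 1) * (1 / s (t - 1) - 1) := by
  have hst : 0 < s (t - 1) := h.pos (by linarith)
  have h1 := h.lt_one (t - 1)
  have : 1 < 1 / s (t - 1) := by
    rw [lt_div_iff₀ hst]
    linarith
  have : 0 < 1 / s (t - 1) - 1 := by linarith
  have h2 : 0 < t ^ (κ - 1) := Real.rpow_pos_of_pos (by linarith) _
  positivity

theorem Sol.I_pos (h : Sol κ (AA κ) s) {u : ℝ} (hu : 1 < u) :
    0 < ∫ t in Ioi u, t ^ (κ - 1) * (1 / s (t - 1) - 1) := by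
  rw [setIntegral_pos_iff_support_of_nonneg_ae]
  · have : Ioi u ⊆ Function.support (fun t : ℝ => t ^ (κ - 1) * (1 / s (t - 1) - 1)) ∩ Ioi u := by
      intro t ht
      exact ⟨(h.hh_pos (hu.trans ht)).ne', ht⟩
    refine lt_of_lt_of_le ?_ (measure_mono this)
    simp
  · refine (ae_restrict_iff' measurableSet_Ioi).2 (Eventually.of_forall fun t ht => ?_)
    exact (h.hh_pos (hu.trans ht)).le
  · exact h.eta_int hu

theorem Sol.I_anti (h : Sol κ (AA κ) s) {u v : ℝ} (hu : 1 < u) (huv : u ≤ v) :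
    ∫ t in Ioi v, t ^ (κ - 1) * (1 / s (t - 1) - 1) ≤
      ∫ t in Ioi u, t ^ (κ - 1) * (1 / s (t - 1) - 1) := by
  refine setIntegral_mono_set (h.eta_int hu) ?_ (Ioi_subset_Ioi huv).eventuallyLE
  refine (ae_restrict_iff' measurableSet_Ioi).2 (Eventually.of_forall fun t ht => ?_)
  exact (h.hh_pos (hu.trans ht)).le

theorem Sol.eta_anti (h : Sol κ (AA κ) s) : StrictAntiOn (eta κ s) (Ioi 1) := by
  intro u hu v hv huv
  have hk := h.hk
  have hu1 : (1 : ℝ) < u := hu
  have hv1 : (1 : ℝ) < v := hv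
  have h1 := h.I_anti hu1 huv.le
  have h2 := h.I_pos hv1
  have h3 : v ^ (-κ) < u ^ (-κ) :=
    Real.rpow_lt_rpow_of_neg (by linarith) huv (by linarith)
  have h4 : 0 < v ^ (-κ) := Real.rpow_pos_of_pos (by linarith) _
  unfold eta
  have h5 : κ * v ^ (-κ) < κ * u ^ (-κ) := mul_lt_mul_of_pos_left h3 (by linarith)
  exact mul_lt_mul h5 h1 h2 (by positivity)

theorem Sol.eta_cont (h : Sol κ (AA κ) s) {a b : ℝ} (ha : 1 < a) (hab : a ≤ b) :
    ContinuousOn (eta κ s) (Icc a b) := by
  have hk := h.hk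
  set f : ℝ → ℝ := fun t => t ^ (κ - 1) * (1 / s (t - 1) - 1) with hf
  have hint : IntegrableOn f (Ioi a) := h.eta_int ha
  have h1 : ContinuousOn (fun u => ∫ t in a..u, f t) (Icc a b) := by
    have h0 : IntegrableOn f (uIcc a b) volume := by
      rw [uIcc_of_le hab, integrableOn_Icc_iff_integrableOn_Ioc]
      exact hint.mono_set Ioc_subset_Ioi_self
    have := intervalIntegral.continuousOn_primitive_interval (μ := volume) h0
    rwa [uIcc_of_le hab] at this
  have h2 : ContinuousOn (fun u => κ * u ^ (-κ) * ((∫ t in Ioi a, f t) - ∫ t in a..u, f t))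
      (Icc a b) := by
    refine ContinuousOn.mul (continuousOn_const.mul ?_) (continuousOn_const.sub h1)
    refine ContinuousOn.rpow_const continuousOn_id fun x hx => Or.inl ?_
    have := hx.1
    exact ne_of_gt (by linarith : (0 : ℝ) < x)
  refine h2.congr fun u hu => ?_
  unfold eta
  congr 1
  rw [intervalIntegral.integral_of_le hu.1, ← Ioc_union_Ioi_eq_Ioi hu.1,
    setIntegral_union (Ioc_disjoint_Ioi le_rfl) measurableSet_Ioi
      (hint.mono_set Ioc_subset_Ioi_self) (hint.mono_set (Ioi_subset_Ioi hu.1))]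
  ring

theorem Sol.eta_small (h : Sol κ (AA κ) s) : ∃ b : ℝ, 2 < b ∧ eta κ s b < 1 := by
  have hk := h.hk
  set I := ∫ t in Ioi (2 : ℝ), t ^ (κ - 1) * (1 / s (t - 1) - 1) with hI
  have h1 : Tendsto (fun u : ℝ => κ * u ^ (-κ) * I) atTop (𝓝 0) := by
    have := ((tendsto_rpow_neg_atTop (by linarith : 0 < κ)).const_mul κ).mul_const I
    simpa using this
  obtain ⟨b, hb⟩ := ((h1.eventually (gt_mem_nhds (zero_lt_one' ℝ))).and
    (eventually_gt_atTop 2)).exists
  refine ⟨b, hb.2, lt_of_le_of_lt ?_ hb.1⟩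
  have hb2 := hb.2
  have h2 := h.I_anti (u := 2) (v := b) (by norm_num) hb2.le
  unfold eta
  have h4 : 0 < b ^ (-κ) := Real.rpow_pos_of_pos (by linarith) _
  exact mul_le_mul_of_nonneg_left h2 (by positivity)

theorem AA_pos {κ : ℝ} (hk : 1 ≤ κ) : 0 < AA κ := by
  unfold AA
  have : 0 < Real.Gamma (κ + 1) := Real.Gamma_pos_of_pos (by linarith)
  positivity

theorem Sol.eta_big (h : Sol κ (AA κ) s) : ∃ a : ℝ, 1 < a ∧ a < 2 ∧ 1 < eta κ s a := by
  have hk := h.hk
  have hA := AA_pos hk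
  set A := AA κ with hAdef
  -- choose N
  set N : ℝ := A * (2 ^ κ + 2 ^ (κ - 1)) + 1 with hN
  have hNp : 0 < N := by positivity
  set a : ℝ := 1 + Real.exp (-N) with ha
  have ha1 : 1 < a := by have := Real.exp_pos (-N); linarith
  have ha2 : a < 2 := by
    have : Real.exp (-N) < 1 := Real.exp_lt_one_iff.2 (by linarith)
    linarith
  refine ⟨a, ha1, ha2, ?_⟩
  have hint := h.eta_int ha1
  have h1 : ∫ t in a..2, (1 / A * (t - 1)⁻¹ - 2 ^ (κ - 1)) ≤
      ∫ t in Ioi a, t ^ (κ - 1) * (1 / s (t - 1) - 1) := by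
    rw [intervalIntegral.integral_of_le ha2.le]
    refine le_trans ?_ (setIntegral_mono_set (s := Ioc a 2) hint ?_
      (Ioc_subset_Ioi_self).eventuallyLE)
    · refine setIntegral_mono_on ?_ (hint.mono_set Ioc_subset_Ioi_self) measurableSet_Ioc
        fun t ht => ?_
      · have hc : ContinuousOn (fun t : ℝ => 1 / A * (t - 1)⁻¹ - 2 ^ (κ - 1)) (Icc a 2) := by
          refine ContinuousOn.sub (continuousOn_const.mul ?_) continuousOn_const
          refine ContinuousOn.inv₀ (by fun_prop) fun x hx => ?_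
          have := hx.1
          linarith
        exact hc.integrableOn_Icc.mono_set Ioc_subset_Icc_self
      · have ht1 : a < t := ht.1
        have ht2 : t ≤ 2 := ht.2
        have hp : 0 < t - 1 := by linarith
        rw [h.init hp (by linarith)]
        have h3 : (t - 1) ^ κ ≤ t - 1 := by
          have := Real.rpow_le_rpow_of_exponent_ge hp (by linarith) hk
          rwa [Real.rpow_one] at this
        have h4 : 0 < (t - 1) ^ κ := Real.rpow_pos_of_pos hp _
        have h5 : 1 ≤ t ^ (κ - 1) := Real.one_le_rpow (by linarith) (by linarith)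
        have h6 : t ^ (κ - 1) ≤ 2 ^ (κ - 1) := Real.rpow_le_rpow (by linarith) ht2 (by linarith)
        have h7 : 1 / A * (t - 1)⁻¹ ≤ 1 / (A * (t - 1) ^ κ) := by
          rw [one_div, one_div, ← mul_inv]
          exact inv_anti₀ (by positivity) (mul_le_mul_of_nonneg_left h3 hA.le)
        have h8 : 0 < 1 / (A * (t - 1) ^ κ) := by positivity
        nlinarith
    · refine (ae_restrict_iff' measurableSet_Ioi).2 (Eventually.of_forall fun t ht => ?_)
      exact (h.hh_pos (ha1.trans ht)).le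
  have h2 : ∫ t in a..2, (1 / A * (t - 1)⁻¹ - 2 ^ (κ - 1)) = N / A - 2 ^ (κ - 1) * (2 - a) := by
    rw [intervalIntegral.integral_sub, intervalIntegral.integral_const_mul,
      intervalIntegral.integral_comp_sub_right (fun x => x⁻¹) 1, integral_inv_of_pos (by linarith)
        (by norm_num), intervalIntegral.integral_const]
    · have : (2 - 1 : ℝ) / (a - 1) = Real.exp N := by
        rw [ha, add_sub_cancel_left, Real.exp_neg]
        norm_num
      rw [this, Real.log_exp, smul_eq_mul]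
      ring
    · refine ContinuousOn.intervalIntegrable ?_
      rw [uIcc_of_le ha2.le]
      refine continuousOn_const.mul (ContinuousOn.inv₀ (by fun_prop) fun x hx => ?_)
      have := hx.1
      linarith
    · simp
  rw [h2] at h1
  have h3 : 2 ^ κ < ∫ t in Ioi a, t ^ (κ - 1) * (1 / s (t - 1) - 1) := by
    refine lt_of_lt_of_le ?_ h1
    have h4 : N / A = 2 ^ κ + 2 ^ (κ - 1) + 1 / A := by
      rw [hN]
      field_simp
    rw [h4]
    have h5 : (2 : ℝ) ^ (κ - 1) * (2 - a) ≤ 2 ^ (κ - 1) := by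
      have : (0 : ℝ) < 2 ^ (κ - 1) := by positivity
      nlinarith
    have : 0 < 1 / A := by positivity
    linarith
  unfold eta
  have h6 : (2 : ℝ) ^ (-κ) ≤ a ^ (-κ) :=
    (Real.rpow_le_rpow_of_nonpos (by linarith) ha2.le (by linarith))
  have h7 : (2 : ℝ) ^ (-κ) * 2 ^ κ = 1 := by
    rw [← Real.rpow_add (by norm_num)]
    simp
  have h8 : (0 : ℝ) < 2 ^ κ := by positivity
  have h9 : (0 : ℝ) < 2 ^ (-κ) := by positivity
  calc (1 : ℝ) = 2 ^ (-κ) * 2 ^ κ := h7.symm
    _ < 2 ^ (-κ) * ∫ t in Ioi a, t ^ (κ - 1) * (1 / s (t - 1) - 1) :=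
        mul_lt_mul_of_pos_left h3 h9
    _ ≤ (κ * a ^ (-κ)) * ∫ t in Ioi a, t ^ (κ - 1) * (1 / s (t - 1) - 1) := by
        refine mul_le_mul_of_nonneg_right ?_ (h8.trans h3).le
        nlinarith

/-- Existence and uniqueness of the root. -/
theorem Sol.root (h : Sol κ (AA κ) s) : ∃ v : ℝ, 1 < v ∧ eta κ s v = 1 ∧
    ∀ u : ℝ, 1 < u → eta κ s u = 1 → u = v := by
  obtain ⟨b, hb, hb1⟩ := h.eta_small
  obtain ⟨a, ha, ha2, ha1⟩ := h.eta_big
  have hab : a ≤ b := by linarith
  obtain ⟨v, hv, hv1⟩ := intermediate_value_Icc' hab (h.eta_cont ha hab)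
    (show (1 : ℝ) ∈ Icc (eta κ s b) (eta κ s a) from ⟨hb1.le, ha1.le⟩)
  have hv2 : 1 < v := lt_of_lt_of_le ha hv.1
  refine ⟨v, hv2, hv1, fun u hu hu1 => ?_⟩
  exact h.eta_anti.injOn hu hv2 (hu1.trans hv1.symm)

end Pool.Agent.N704.VK
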