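import Mathlib
import Pool.Agent.N704.VK.Eta

/-!
# Upper and lower bounds of `η_κ`
-/

set_option autoImplicit false

namespace Pool.Agent.N704.VK

open MeasureTheory Set Filter Topology

variable {κ A : ℝ} {s : ℝ → ℝ}

theorem rpow_exp_le {a θ t : ℝ} (ha : 0 < a) (hθ : 0 < θ) (ht : 0 < t) :
    t ^ a * Real.exp (-(θ * t)) ≤ (a / (Real.exp 1 * θ)) ^ a := by
  have h1 : Real.log (θ * t / a) ≤ θ * t / a - 1 := Real.log_le_sub_one_of_pos (by positivity)
  rw [Real.rpow_def_of_pos ht, Real.rpow_def_of_pos (by positivity), ← Real.exp_add]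
  apply Real.exp_le_exp.2
  have h2 : Real.log (a / (Real.exp 1 * θ)) = Real.log a - 1 - Real.log θ := by
    rw [Real.log_div ha.ne' (by positivity), Real.log_mul (Real.exp_pos 1).ne' hθ.ne',
      Real.log_exp]
    ring
  have h3 : Real.log (θ * t / a) = Real.log θ + Real.log t - Real.log a := by
    rw [Real.log_div (by positivity) ha.ne', Real.log_mul hθ.ne' ht.ne']
  rw [h3] at h1
  rw [h2]
  have h4 := mul_le_mul_of_nonneg_left h1 ha.le
  have h5 : a * (θ * t / a - 1) = θ * t - a := by field_simp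
  rw [h5] at h4
  nlinarith

/-- Upper bound of `η_κ`. -/
theorem Sol.eta_le (h : Sol κ (AA κ) s) {u θ : ℝ} (hu : 1 < u) (hθ : 0 < θ) :
    eta κ s u ≤ 1 / s (u - 1) * (κ * (Real.exp θ * Gn κ s 0 θ) *
      ((κ + 1) / (Real.exp 1 * θ * u)) ^ (κ + 1)) := by
  have hk := h.hk
  have hsu : 0 < s (u - 1) := h.pos (by linarith)
  have hG : 0 ≤ Gn κ s 0 θ := integral_nonneg fun t => by
    have := h.rr_nonneg t
    positivity
  set Q : ℝ := ((κ + 1) / (Real.exp 1 * θ)) ^ (κ + 1) with hQ
  have hQp : 0 < Q := by positivity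
  have hu0 : 0 < u := by linarith
  have h2i : IntegrableOn (fun t : ℝ => t ^ (-2 : ℝ)) (Ioi u) :=
    integrableOn_Ioi_rpow_of_lt (by norm_num) hu0
  have h1 : ∫ t in Ioi u, t ^ (κ - 1) * (1 / s (t - 1) - 1) ≤
      ∫ t in Ioi u, (1 / s (u - 1) * (Real.exp θ * Gn κ s 0 θ) * Q) * t ^ (-2 : ℝ) := by
    refine setIntegral_mono_on (h.eta_int hu) (h2i.const_mul _) measurableSet_Ioi fun t ht => ?_
    have htu : u < t := ht
    have ht0 : 0 < t := by linarith
    have hst : 0 < s (t - 1) := h.pos (by linarith)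
    have hle := h.le_one (t - 1)
    have hmk := h.markov hθ.le (t - 1)
    have hmon : s (u - 1) ≤ s (t - 1) :=
      h.strictMono.monotoneOn (show (0 : ℝ) ≤ u - 1 by linarith) (show (0 : ℝ) ≤ t - 1 by linarith)
        (by linarith)
    have e : 1 / s (t - 1) - 1 = (1 / s (t - 1)) * (1 - s (t - 1)) := by field_simp
    have h3 : 1 / s (t - 1) ≤ 1 / s (u - 1) := one_div_le_one_div_of_le hsu hmon
    have h4 : 1 / s (t - 1) - 1 ≤ (1 / s (u - 1)) * (Real.exp (-(θ * (t - 1))) * Gn κ s 0 θ) := by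
      rw [e]
      exact mul_le_mul h3 hmk (by linarith) (by positivity)
    have h5 : t ^ (κ - 1) * Real.exp (-(θ * t)) ≤ Q * t ^ (-2 : ℝ) := by
      have h6 := rpow_exp_le (a := κ + 1) (by linarith) hθ ht0
      have h7 : t ^ (κ - 1) = t ^ (κ + 1) * t ^ (-2 : ℝ) := by
        rw [← Real.rpow_add ht0]
        congr 1
        ring
      rw [h7]
      have h8 : 0 < t ^ (-2 : ℝ) := Real.rpow_pos_of_pos ht0 _
      calc t ^ (κ + 1) * t ^ (-2 : ℝ) * Real.exp (-(θ * t))
          = (t ^ (κ + 1) * Real.exp (-(θ * t))) * t ^ (-2 : ℝ) := by ring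
        _ ≤ _ := mul_le_mul_of_nonneg_right h6 h8.le
    calc t ^ (κ - 1) * (1 / s (t - 1) - 1)
        ≤ t ^ (κ - 1) * ((1 / s (u - 1)) * (Real.exp (-(θ * (t - 1))) * Gn κ s 0 θ)) :=
          mul_le_mul_of_nonneg_left h4 (Real.rpow_nonneg ht0.le _)
      _ = (1 / s (u - 1)) * (Real.exp θ * Gn κ s 0 θ) * (t ^ (κ - 1) * Real.exp (-(θ * t))) := by
          rw [show -(θ * (t - 1)) = θ + -(θ * t) by ring, Real.exp_add]
          ring
      _ ≤ (1 / s (u - 1)) * (Real.exp θ * Gn κ s 0 θ) * (Q * t ^ (-2 : ℝ)) :=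
          mul_le_mul_of_nonneg_left h5 (by positivity)
      _ = _ := by ring
  rw [integral_const_mul, integral_Ioi_rpow_of_lt (by norm_num) hu0] at h1
  have e2 : -u ^ ((-2 : ℝ) + 1) / (-2 + 1) = u⁻¹ := by
    rw [show (-2 : ℝ) + 1 = -1 by norm_num, Real.rpow_neg_one]
    ring
  rw [e2] at h1
  unfold eta
  have hup : 0 < u ^ (-κ) := Real.rpow_pos_of_pos hu0 _
  refine (mul_le_mul_of_nonneg_left h1 (by positivity : 0 ≤ κ * u ^ (-κ))).trans (le_of_eq ?_)
  have e3 : ((κ + 1) / (Real.exp 1 * θ * u)) ^ (κ + 1) = Q * (u ^ (-κ) * u⁻¹) := by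
    rw [← div_div, Real.div_rpow (by positivity) hu0.le, ← Real.rpow_neg_one u,
      ← Real.rpow_add hu0, div_eq_mul_inv, ← Real.rpow_neg hu0.le]
    congr 2
    ring
  rw [e3]
  ring

/-! ### The lower bound -/

/-- The point of tilting. -/
noncomputable def th : ℝ := Real.log 2 / 2

theorem th_pos : 0 < th := by
  unfold th
  have := Real.log_pos (by norm_num : (1 : ℝ) < 2)
  positivity

theorem exp_two_th : Real.exp (2 * th) = 2 := by
  unfold th
  rw [show 2 * (Real.log 2 / 2) = Real.log 2 by ring, Real.exp_log (by norm_num)]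

theorem ph_th : ph th = 1 / th := by
  rw [ph_eq th_pos.ne', exp_two_th]
  norm_num

theorem ph_deriv_th : HasDerivAt ph ((2 * Real.log 2 - 1) / th ^ 2) th := by
  have h1 : HasDerivAt (fun θ : ℝ => (Real.exp (2 * θ) - 1) / θ)
      ((Real.exp (2 * th) * (2 * 1) * th - (Real.exp (2 * th) - 1) * 1) / th ^ 2) th :=
    ((((hasDerivAt_id th).const_mul 2).exp).sub_const 1).div (hasDerivAt_id th) th_pos.ne'
  have h2 : HasDerivAt ph
      ((Real.exp (2 * th) * (2 * 1) * th - (Real.exp (2 * th) - 1) * 1) / th ^ 2) th := by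
    refine h1.congr_of_eventuallyEq ?_
    filter_upwards [Ioi_mem_nhds th_pos] with y hy
    exact ph_eq (ne_of_gt hy)
  refine h2.congr_deriv ?_
  rw [exp_two_th]
  congr 1
  unfold th
  ring

theorem Sol.G1_th (h : Sol κ A s) : Gn κ s 1 th = κ / th * Gn κ s 0 th := by
  rw [h.ode, ph_th]
  ring

theorem Sol.G2_th (h : Sol κ A s) :
    Gn κ s 2 th = (κ * (2 * Real.log 2 - 1) / th ^ 2 + (κ / th) ^ 2) * Gn κ s 0 th := by
  have h1 : HasDerivAt (Gn κ s 1) (Gn κ s 2 th) th := h.Gn_deriv 1 th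
  have h2 : HasDerivAt (fun θ => κ * ph θ * Gn κ s 0 θ)
      (κ * ((2 * Real.log 2 - 1) / th ^ 2) * Gn κ s 0 th + κ * ph th * Gn κ s 1 th) th :=
    (ph_deriv_th.const_mul κ).mul (h.Gn_deriv 0 th)
  have h3 : Gn κ s 1 = fun θ => κ * ph θ * Gn κ s 0 θ := funext fun θ => h.ode θ
  rw [h3] at h1
  rw [h1.unique h2, h.G1_th, ph_th]
  have := th_pos
  field_simp

/-- `log (1+x) ≥ x - (2/3) x^2` for `x ≥ -1/4`. -/
theorem log_lower {x : ℝ} (hx : -1 / 4 ≤ x) : x - 2 / 3 * x ^ 2 ≤ Real.log (1 + x) := by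
  set f : ℝ → ℝ := fun x => Real.log (1 + x) - x + 2 / 3 * x ^ 2 with hf
  have hd : ∀ y : ℝ, -1 < y → HasDerivAt f (y * (4 * y + 1) / (3 * (1 + y))) y := by
    intro y hy
    have h1 : HasDerivAt (fun x : ℝ => Real.log (1 + x)) (1 / (1 + y)) y := by
      have := ((hasDerivAt_id y).const_add 1).log (by simp; linarith)
      simpa using this
    have h2 := (h1.sub (hasDerivAt_id y)).add (((hasDerivAt_pow 2 y)).const_mul (2 / 3))
    refine h2.congr_deriv ?_
    have : 1 + y ≠ 0 := by linarith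
    field_simp
    ring
  have h0 : f 0 = 0 := by simp [hf]
  have hc : ContinuousOn f (Icc (-1 / 4) (max x 0)) := fun y hy =>
    (hd y (by have := hy.1; linarith)).continuousAt.continuousWithinAt
  suffices 0 ≤ f x by
    simp only [hf] at this
    linarith
  rcases le_or_gt x 0 with hx0 | hx0
  · have hanti : AntitoneOn f (Icc (-1 / 4) 0) := by
      refine antitoneOn_of_deriv_nonpos (convex_Icc _ _) (hc.mono (Icc_subset_Icc le_rfl
        (le_max_right _ _))) (fun y hy => ?_) fun y hy => ?_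
      · rw [interior_Icc] at hy
        exact (hd y (by have := hy.1; linarith)).differentiableAt.differentiableWithinAt
      · rw [interior_Icc] at hy
        rw [(hd y (by have := hy.1; linarith)).deriv]
        refine div_nonpos_of_nonpos_of_nonneg ?_ (by have := hy.1; linarith)
        have h1 := hy.1
        have h2 := hy.2
        nlinarith
    have := hanti ⟨hx, hx0⟩ ⟨by norm_num, le_rfl⟩ hx0
    rwa [h0] at this
  · have hmono : MonotoneOn f (Icc 0 x) := by
      refine monotoneOn_of_deriv_nonneg (convex_Icc _ _) (hc.mono (Icc_subset_Icc (by norm_num)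
        (le_max_left _ _))) (fun y hy => ?_) fun y hy => ?_
      · rw [interior_Icc] at hy
        exact (hd y (by have := hy.1; linarith)).differentiableAt.differentiableWithinAt
      · rw [interior_Icc] at hy
        rw [(hd y (by have := hy.1; linarith)).deriv]
        have h1 := hy.1
        have h2 := hy.2
        positivity
    have := hmono ⟨le_rfl, hx0.le⟩ ⟨hx0.le, le_rfl⟩ hx0.le
    rwa [h0] at this

/-- Integrability of `t^κ r(t-1)`. -/
theorem Sol.pow_rr_int (h : Sol κ (AA κ) s) {u : ℝ} (hu : 0 ≤ u) :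
    IntegrableOn (fun t : ℝ => t ^ κ * rr κ s (t - 1)) (Ioi u) := by
  have hk := h.hk
  obtain ⟨C, hC, hb⟩ := h.rr_decay 1 zero_le_one
  have h1 := powexp_int (κ + 1) (by linarith) C hu
  refine h1.mono' ?_ ?_
  · have h2 : Measurable fun t : ℝ => rr κ s (t - 1) :=
      h.rr_meas.comp (measurable_id.sub_const 1)
    exact ((measurable_id.pow_const κ).mul h2).aestronglyMeasurable
  · refine (ae_restrict_iff' measurableSet_Ioi).2 (Eventually.of_forall fun t ht => ?_)
    have ht0 : 0 < t := lt_of_le_of_lt hu ht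
    rw [Real.norm_eq_abs, abs_of_nonneg (mul_nonneg (Real.rpow_nonneg ht0.le _) (h.rr_nonneg _)),
      add_sub_cancel_right]
    refine mul_le_mul_of_nonneg_left ?_ (Real.rpow_nonneg ht0.le _)
    have := hb (t - 1)
    rwa [show -1 * (t - 1) = -(t - 1) by ring] at this

/-- First lower bound, by parts. -/
theorem Sol.eta_ge (h : Sol κ (AA κ) s) {u : ℝ} (hu : 1 < u) :
    u ^ (-κ) * (∫ t in Ioi u, t ^ κ * rr κ s (t - 1)) - (1 - s (u - 1)) ≤ eta κ s u := by
  have hk := h.hk
  have hu0 : 0 < u := by linarith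
  -- the integral of `κ t^{κ-1} (1 - s (t-1))`
  have hpint : IntegrableOn (fun t : ℝ => κ * t ^ (κ - 1) * (1 - s (t - 1))) (Ioi u) := by
    have h1 := powexp_int κ (by linarith) (κ * Gn κ s 0 1) hu0.le
    refine h1.mono' ?_ ?_
    · have h2 : Measurable fun t : ℝ => s (t - 1) :=
        h.cont.measurable.comp (measurable_id.sub_const 1)
      exact (((measurable_id.pow_const (κ - 1)).const_mul κ).mul
        (measurable_const.sub h2)).aestronglyMeasurable
    · refine (ae_restrict_iff' measurableSet_Ioi).2 (Eventually.of_forall fun t ht => ?_)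
      have htu : u < t := ht
      have ht0 : 0 < t := by linarith
      have hle := h.le_one (t - 1)
      have hmk := h.markov (θ := 1) zero_le_one (t - 1)
      rw [one_mul] at hmk
      rw [Real.norm_eq_abs, abs_of_nonneg (mul_nonneg (by positivity) (by linarith))]
      calc κ * t ^ (κ - 1) * (1 - s (t - 1))
          ≤ κ * t ^ (κ - 1) * (Real.exp (-(t - 1)) * Gn κ s 0 1) :=
            mul_le_mul_of_nonneg_left hmk (by positivity)
        _ = _ := by ring
  have hparts : ∫ t in Ioi u, (κ * t ^ (κ - 1) * (1 - s (t - 1)) - t ^ κ * rr κ s (t - 1)) =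
      0 - u ^ κ * (1 - s (u - 1)) := by
    refine integral_Ioi_of_hasDerivAt_of_tendsto (f := fun t => t ^ κ * (1 - s (t - 1))) ?_ ?_
      (hpint.sub (h.pow_rr_int hu0.le)) ?_
    · have hc : ContinuousAt (fun t => t ^ κ * (1 - s (t - 1))) u := by
        refine ContinuousAt.mul (Real.continuousAt_rpow_const _ _ (Or.inl hu0.ne')) ?_
        have : Continuous fun t : ℝ => 1 - s (t - 1) := by
          have := h.cont
          fun_prop
        exact this.continuousAt
      exact hc.continuousWithinAt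
    · intro t ht
      have htu : u < t := ht
      have ht0 : 0 < t := by linarith
      have h1 : HasDerivAt (fun t : ℝ => t ^ κ) (κ * t ^ (κ - 1)) t :=
        Real.hasDerivAt_rpow_const (Or.inl ht0.ne')
      have h2 : HasDerivAt (fun t : ℝ => s (t - 1)) (rr κ s (t - 1) * 1) t :=
        (h.rr_der (t := t - 1) (by linarith)).comp t ((hasDerivAt_id t).sub_const 1)
      refine (h1.mul (h2.const_sub 1)).congr_deriv ?_
      ring
    · have h1 := tendsto_rpow_mul_exp_neg_mul_atTop_nhds_zero κ 1 one_pos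
      have h2 := h1.const_mul (Real.exp 1 * Gn κ s 0 1)
      rw [mul_zero] at h2
      refine squeeze_zero' ?_ ?_ h2
      · filter_upwards [eventually_gt_atTop 0] with t ht
        have := h.le_one (t - 1)
        exact mul_nonneg (Real.rpow_nonneg ht.le _) (by linarith)
      · filter_upwards [eventually_gt_atTop 0] with t ht
        have hmk := h.markov (θ := 1) zero_le_one (t - 1)
        rw [show -(1 * (t - 1)) = 1 + -1 * t by ring, Real.exp_add] at hmk
        calc t ^ κ * (1 - s (t - 1))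
            ≤ t ^ κ * (Real.exp 1 * Real.exp (-1 * t) * Gn κ s 0 1) :=
              mul_le_mul_of_nonneg_left hmk (Real.rpow_nonneg ht.le _)
          _ = _ := by ring
  rw [integral_sub hpint (h.pow_rr_int hu0.le)] at hparts
  have hle : ∫ t in Ioi u, κ * t ^ (κ - 1) * (1 - s (t - 1)) ≤
      ∫ t in Ioi u, κ * (t ^ (κ - 1) * (1 / s (t - 1) - 1)) := by
    refine setIntegral_mono_on hpint ((h.eta_int hu).const_mul κ) measurableSet_Ioi fun t ht => ?_
    have htu : u < t := ht
    have ht0 : 0 < t := by linarith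
    have hst : 0 < s (t - 1) := h.pos (by linarith)
    have hle := h.le_one (t - 1)
    have h3 : 1 - s (t - 1) ≤ 1 / s (t - 1) - 1 := by
      have e : 1 / s (t - 1) - 1 = (1 / s (t - 1)) * (1 - s (t - 1)) := by field_simp
      rw [e]
      have : 1 ≤ 1 / s (t - 1) := by
        rw [le_div_iff₀ hst]
        linarith
      nlinarith
    calc κ * t ^ (κ - 1) * (1 - s (t - 1)) ≤ κ * t ^ (κ - 1) * (1 / s (t - 1) - 1) :=
          mul_le_mul_of_nonneg_left h3 (by positivity)
      _ = _ := by ring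
  rw [integral_const_mul] at hle
  unfold eta
  have hup : 0 < u ^ (-κ) := Real.rpow_pos_of_pos hu0 _
  have e1 : u ^ (-κ) * u ^ κ = 1 := by
    rw [← Real.rpow_add hu0]
    simp
  calc u ^ (-κ) * (∫ t in Ioi u, t ^ κ * rr κ s (t - 1)) - (1 - s (u - 1))
      = u ^ (-κ) * (∫ t in Ioi u, t ^ κ * rr κ s (t - 1)) -
        (u ^ (-κ) * u ^ κ) * (1 - s (u - 1)) := by rw [e1, one_mul]
    _ = u ^ (-κ) * ((∫ t in Ioi u, t ^ κ * rr κ s (t - 1)) - u ^ κ * (1 - s (u - 1))) := by ring
    _ = u ^ (-κ) * ∫ t in Ioi u, κ * t ^ (κ - 1) * (1 - s (t - 1)) := by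
        congr 1
        linarith
    _ ≤ u ^ (-κ) * (κ * ∫ t in Ioi u, t ^ (κ - 1) * (1 / s (t - 1) - 1)) :=
        mul_le_mul_of_nonneg_left hle hup.le
    _ = _ := by ring

/-- The main lower bound for the moment. -/
theorem Sol.moment_ge (h : Sol κ (AA κ) s) (hk : 100 ≤ κ) {u : ℝ}
    (hu1 : 3 / 4 * (κ / th + 1) ≤ u) (hu2 : u ≤ 86 / 100 * (κ / th + 1)) :
    (κ / th + 1) ^ κ * Real.exp (-κ) * (Gn κ s 0 th * (1 - 2 / 3 * (2 * Real.log 2 - 1))) ≤
      ∫ t in Ioi u, t ^ κ * rr κ s (t - 1) := by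
  have hth := th_pos
  have hk0 : 0 < κ := by linarith
  have hl2 := Real.log_two_gt_d9
  have hl2' := Real.log_two_lt_d9
  set M : ℝ := κ / th + 1 with hM
  have hMp : 0 < M := by positivity
  have hu0 : 0 < u := lt_of_lt_of_le (by positivity) hu1
  set W : ℝ → ℝ := fun y => M ^ κ * Real.exp (-κ) * (Real.exp (th * y) *
    (1 - th * ((y - κ / th) / M) - 2 / 3 * κ * ((y - κ / th) / M) ^ 2) * rr κ s y) with hW
  -- decomposition of W
  have hWe : W = fun y => M ^ κ * Real.exp (-κ) *
      ((1 + th * (κ / th / M) - 2 / 3 * κ * (κ / th / M) ^ 2) *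
        (y ^ 0 * Real.exp (th * y) * rr κ s y) +
      (-(th / M) + 4 / 3 * κ * (κ / th / M) / M) * (y ^ 1 * Real.exp (th * y) * rr κ s y) +
      (-(2 / 3 * κ / M ^ 2)) * (y ^ 2 * Real.exp (th * y) * rr κ s y)) := by
    funext y
    simp only [hW]
    field_simp
    ring
  have hWint : Integrable W := by
    rw [hWe]
    exact ((((h.int 0 th).const_mul _).add ((h.int 1 th).const_mul _)).add
      ((h.int 2 th).const_mul _)).const_mul _
  have hWval : ∫ y, W y = M ^ κ * Real.exp (-κ) * (Gn κ s 0 th *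
      (1 - 2 / 3 * κ * (κ * (2 * Real.log 2 - 1) / th ^ 2) / M ^ 2)) := by
    have hadd : ∀ a b c : ℝ, ∫ y, (a * (y ^ 0 * Real.exp (th * y) * rr κ s y) +
        b * (y ^ 1 * Real.exp (th * y) * rr κ s y) + c * (y ^ 2 * Real.exp (th * y) * rr κ s y)) =
        a * (∫ y, y ^ 0 * Real.exp (th * y) * rr κ s y) +
        b * (∫ y, y ^ 1 * Real.exp (th * y) * rr κ s y) +
        c * (∫ y, y ^ 2 * Real.exp (th * y) * rr κ s y) := by
      intro a b c
      rw [← integral_const_mul, ← integral_const_mul, ← integral_const_mul]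
      have h3 : ∫ y, (a * (y ^ 0 * Real.exp (th * y) * rr κ s y) +
          b * (y ^ 1 * Real.exp (th * y) * rr κ s y) + c * (y ^ 2 * Real.exp (th * y) * rr κ s y)) =
          (∫ y, (a * (y ^ 0 * Real.exp (th * y) * rr κ s y) +
          b * (y ^ 1 * Real.exp (th * y) * rr κ s y))) +
          ∫ y, c * (y ^ 2 * Real.exp (th * y) * rr κ s y) :=
        integral_add (((h.int 0 th).const_mul a).add ((h.int 1 th).const_mul b))
          ((h.int 2 th).const_mul c)
      rw [h3]
      congr 1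
      exact integral_add ((h.int 0 th).const_mul a) ((h.int 1 th).const_mul b)
    rw [hWe, integral_const_mul, hadd]
    have e0 : ∫ y, y ^ 0 * Real.exp (th * y) * rr κ s y = Gn κ s 0 th := rfl
    have e1 : ∫ y, y ^ 1 * Real.exp (th * y) * rr κ s y = κ / th * Gn κ s 0 th := h.G1_th
    have e2 : ∫ y, y ^ 2 * Real.exp (th * y) * rr κ s y =
      (κ * (2 * Real.log 2 - 1) / th ^ 2 + (κ / th) ^ 2) * Gn κ s 0 th := h.G2_th
    rw [e0, e1, e2]
    field_simp
    ring
  -- comparison
  have hshift : ∫ t, W (t - 1) = ∫ y, W y := integral_sub_right_eq_self W 1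
  have hWint' : Integrable (fun t => W (t - 1)) := hWint.comp_sub_right 1
  have hneg : ∫ t in Iic u, W (t - 1) ≤ 0 := by
    refine setIntegral_nonpos measurableSet_Iic fun t ht => ?_
    have htu : t ≤ u := ht
    rcases le_or_gt t 1 with h1 | h1
    · simp only [hW]
      rw [rr_nonpos_eq (by linarith : t - 1 ≤ 0)]
      simp
    · have hr := h.rr_nonneg (t - 1)
      set x : ℝ := (t - 1 - κ / th) / M with hx
      have hx1 : x ≤ -14 / 100 := by
        rw [hx, div_le_iff₀ hMp]
        have : M = κ / th + 1 := hM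
        linarith
      have hth1 : th ≤ 1 := by
        unfold th
        linarith
      have : 1 - th * x - 2 / 3 * κ * x ^ 2 ≤ 0 := by
        have h5 : 2 / 3 * 100 * x ^ 2 ≤ 2 / 3 * κ * x ^ 2 := by
          have := sq_nonneg x
          nlinarith
        nlinarith
      have h6 : 0 ≤ M ^ κ * Real.exp (-κ) := by positivity
      have h7 : Real.exp (th * (t - 1)) * (1 - th * x - 2 / 3 * κ * x ^ 2) * rr κ s (t - 1) ≤ 0 := by
        refine mul_nonpos_of_nonpos_of_nonneg ?_ hr
        exact mul_nonpos_of_nonneg_of_nonpos (Real.exp_pos _).le this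
      exact mul_nonpos_of_nonneg_of_nonpos h6 h7
  have hsplit : ∫ t, W (t - 1) = (∫ t in Iic u, W (t - 1)) + ∫ t in Ioi u, W (t - 1) := by
    rw [← setIntegral_union (Iic_disjoint_Ioi le_rfl) measurableSet_Ioi hWint'.integrableOn
      hWint'.integrableOn, Iic_union_Ioi, setIntegral_univ]
  have hcomp : ∫ t in Ioi u, W (t - 1) ≤ ∫ t in Ioi u, t ^ κ * rr κ s (t - 1) := by
    refine setIntegral_mono_on hWint'.integrableOn (h.pow_rr_int hu0.le) measurableSet_Ioi
      fun t ht => ?_
    have htu : u < t := ht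
    have ht0 : 0 < t := by linarith
    have hr := h.rr_nonneg (t - 1)
    set x : ℝ := (t - 1 - κ / th) / M with hx
    have hMx : M * x = t - 1 - κ / th := by
      rw [hx]
      field_simp
    have hxM : t = M * (1 + x) := by
      rw [mul_add, hMx, hM]
      ring
    have hthM : th * M = κ + th := by
      rw [hM]
      field_simp
    have hx1 : -1 / 4 ≤ x := by
      by_contra hc
      push Not at hc
      have : M * (1 + x) < M * (3 / 4) := mul_lt_mul_of_pos_left (by linarith) hMp
      linarith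
    have h1x : 0 < 1 + x := by linarith
    have hlog := log_lower hx1
    have e1 : t ^ κ = M ^ κ * Real.exp (κ * Real.log (1 + x)) := by
      rw [hxM, Real.mul_rpow hMp.le h1x.le, Real.rpow_def_of_pos h1x, mul_comm κ]
    have e2 : Real.exp (-κ) * Real.exp (th * (t - 1)) = Real.exp ((κ + th) * x) := by
      rw [← Real.exp_add]
      congr 1
      have h9 : t - 1 = κ / th + M * x := by
        rw [hMx]
        ring
      have h10 : th * (κ / th) = κ := by field_simp
      rw [h9, mul_add, h10, ← mul_assoc, hthM]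
      ring
    have e3 : Real.exp (κ * Real.log (1 + x)) ≥
        Real.exp ((κ + th) * x) * (1 - th * x - 2 / 3 * κ * x ^ 2) := by
      have h4 : Real.exp ((κ + th) * x) * (1 - th * x - 2 / 3 * κ * x ^ 2) ≤
          Real.exp ((κ + th) * x) * Real.exp (-th * x - 2 / 3 * κ * x ^ 2) := by
        refine mul_le_mul_of_nonneg_left ?_ (Real.exp_pos _).le
        have := Real.add_one_le_exp (-th * x - 2 / 3 * κ * x ^ 2)
        linarith
      refine ge_iff_le.2 (h4.trans ?_)
      rw [← Real.exp_add]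
      apply Real.exp_le_exp.2
      have := mul_le_mul_of_nonneg_left hlog hk0.le
      nlinarith
    have e4 : W (t - 1) = M ^ κ * (Real.exp (-κ) * Real.exp (th * (t - 1))) *
        (1 - th * x - 2 / 3 * κ * x ^ 2) * rr κ s (t - 1) := by
      simp only [hW, hx]
      ring
    rw [e4, e2, e1]
    refine mul_le_mul_of_nonneg_right ?_ hr
    rw [mul_assoc]
    exact mul_le_mul_of_nonneg_left e3 (by positivity)
  have hG : 0 ≤ Gn κ s 0 th := integral_nonneg fun t => by
    have := h.rr_nonneg t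
    positivity
  have hfin : M ^ κ * Real.exp (-κ) * (Gn κ s 0 th * (1 - 2 / 3 * (2 * Real.log 2 - 1))) ≤
      ∫ y, W y := by
    rw [hWval]
    refine mul_le_mul_of_nonneg_left ?_ (by positivity)
    refine mul_le_mul_of_nonneg_left ?_ hG
    have h1 : κ ^ 2 / th ^ 2 / M ^ 2 ≤ 1 := by
      rw [div_le_one (by positivity)]
      rw [← div_pow]
      exact pow_le_pow_left₀ (by positivity) (by rw [hM]; linarith) 2
    have h2 : 2 / 3 * κ * (κ * (2 * Real.log 2 - 1) / th ^ 2) / M ^ 2 =
        2 / 3 * (2 * Real.log 2 - 1) * (κ ^ 2 / th ^ 2 / M ^ 2) := by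
      field_simp
    rw [h2]
    have h3 : 0 ≤ 2 / 3 * (2 * Real.log 2 - 1) := by linarith
    nlinarith
  calc _ ≤ ∫ y, W y := hfin
    _ = (∫ t in Iic u, W (t - 1)) + ∫ t in Ioi u, W (t - 1) := by rw [← hshift, hsplit]
    _ ≤ 0 + ∫ t in Ioi u, t ^ κ * rr κ s (t - 1) := add_le_add hneg hcomp
    _ = _ := zero_add _

end Pool.Agent.N704.VK
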