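import Mathlib
import Pool.Agent.N704.VK.Bounds

/-!
# Asymptotic bounds of the root of `η_κ = 1`
-/

set_option autoImplicit false

namespace Pool.Agent.N704.VK

open MeasureTheory Set Filter Topology

variable {κ : ℝ} {s : ℝ → ℝ}

/-- The exponent. -/
noncomputable def Lam : ℝ := Ph th

theorem ph_zero : ph 0 = 2 := by simp [ph]

theorem Lam_lower : 2 * th + th ^ 2 ≤ Lam := by
  have h1 : ∫ x in (0 : ℝ)..th, (2 + 2 * x) = 2 * th + th ^ 2 := by
    rw [intervalIntegral.integral_add (by simp) (Continuous.intervalIntegrable (by fun_prop) _ _),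
      intervalIntegral.integral_const_mul, integral_id, intervalIntegral.integral_const]
    simp
    ring
  rw [← h1]
  refine intervalIntegral.integral_mono_on th_pos.le
    (Continuous.intervalIntegrable (by fun_prop) _ _) (ph_cont.intervalIntegrable _ _) ?_
  intro x hx
  rcases lt_or_eq_of_le hx.1 with h0 | h0
  · rw [ph_eq h0.ne', le_div_iff₀ h0]
    have := Real.quadratic_le_exp_of_nonneg (x := 2 * x) (by linarith)
    nlinarith
  · rw [← h0, ph_zero]
    norm_num

theorem th_bounds : (0.3465 : ℝ) < th ∧ th < 0.3466 := by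
  have hl2 := Real.log_two_gt_d9
  have hl2' := Real.log_two_lt_d9
  unfold th
  constructor <;> linarith

theorem Lam_upper : Lam ≤ 2 * th + th ^ 2 + 2 / 3 * th ^ 3 := by
  have h1 : ∫ x in (0 : ℝ)..th, (2 + 2 * x + 2 * x ^ 2) = 2 * th + th ^ 2 + 2 / 3 * th ^ 3 := by
    rw [intervalIntegral.integral_add (Continuous.intervalIntegrable (by fun_prop) _ _)
      (Continuous.intervalIntegrable (by fun_prop) _ _),
      intervalIntegral.integral_add (by simp) (Continuous.intervalIntegrable (by fun_prop) _ _),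
      intervalIntegral.integral_const_mul, intervalIntegral.integral_const_mul, integral_id,
      integral_pow, intervalIntegral.integral_const]
    simp
    ring
  rw [← h1]
  refine intervalIntegral.integral_mono_on th_pos.le (ph_cont.intervalIntegrable _ _)
    (Continuous.intervalIntegrable (by fun_prop) _ _) ?_
  intro x hx
  have hb := th_bounds
  rcases lt_or_eq_of_le hx.1 with h0 | h0
  · rw [ph_eq h0.ne', div_le_iff₀ h0]
    have := Real.exp_bound' (x := 2 * x) (by linarith) (by linarith [hx.2]) (n := 3) (by norm_num)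
    simp [Finset.sum_range_succ, Nat.factorial] at this
    have h3 : 0 < x ^ 3 := by positivity
    nlinarith
  · rw [← h0, ph_zero]
    norm_num

theorem Lam_bounds : (0.81 : ℝ) < Lam ∧ Lam < 0.8417 := by
  have h1 := Lam_lower
  have h2 := Lam_upper
  have h3 := th_bounds
  have h0 := th_pos
  constructor
  · nlinarith
  · have : th ^ 2 ≤ 0.3466 ^ 2 := pow_le_pow_left₀ h0.le h3.2.le 2
    have : th ^ 3 ≤ 0.3466 ^ 3 := pow_le_pow_left₀ h0.le h3.2.le 3
    nlinarith

/-- `e^{Λ-1}`. -/
noncomputable def EE : ℝ := Real.exp (Lam - 1)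

theorem EE_pos : 0 < EE := Real.exp_pos _

theorem EE_gt : Lam < EE := by
  have h := Lam_bounds
  have := Real.add_one_lt_exp (x := Lam - 1) (by linarith [h.2])
  unfold EE
  linarith

theorem EE_lt : EE < 0.86 := by
  have h := Lam_bounds
  have h1 := Real.quadratic_le_exp_of_nonneg (x := 1 - Lam) (by linarith)
  have h2 : EE * Real.exp (1 - Lam) = 1 := by
    unfold EE
    rw [← Real.exp_add]
    simp
  have h3 := EE_pos
  by_contra hc
  push Not at hc
  have h4 : (1.1708 : ℝ) ≤ Real.exp (1 - Lam) := by nlinarith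
  nlinarith

/-- The limit constant `c = 2.445...`. -/
noncomputable def cc : ℝ := EE / th

theorem cc_pos : 0 < cc := div_pos EE_pos th_pos

theorem cc_gt : 2 < cc := by
  unfold cc
  rw [lt_div_iff₀ th_pos]
  have := Lam_bounds
  have := EE_gt
  have := th_bounds
  linarith

theorem Sol.G_th (h : Sol κ (AA κ) s) : Gn κ s 0 th = Real.exp (κ * Lam) := by
  rw [h.G_eq, h.total, one_mul]
  rfl

/-- The tail bound. -/
theorem Sol.tail_th (h : Sol κ (AA κ) s) {ρ : ℝ} (hρ : 1 ≤ ρ) :
    1 - s (ρ * cc * κ - 1) ≤ Real.exp th * Real.exp (-((EE - Lam) * κ)) := by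
  have hk := h.hk
  have h1 := h.markov th_pos.le (ρ * cc * κ - 1)
  rw [h.G_th, ← Real.exp_add] at h1
  refine h1.trans ?_
  rw [← Real.exp_add]
  apply Real.exp_le_exp.2
  have h2 : th * (ρ * cc * κ - 1) = ρ * (EE * κ) - th := by
    unfold cc
    have := th_pos
    field_simp
  rw [h2]
  have : EE * κ ≤ ρ * (EE * κ) := by
    have : 0 < EE * κ := mul_pos EE_pos (by linarith)
    nlinarith
  linarith

theorem tail_lim : Tendsto (fun κ : ℝ => Real.exp th * Real.exp (-((EE - Lam) * κ))) atTop (𝓝 0) := by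
  have h1 : 0 < EE - Lam := by linarith [EE_gt]
  have h2 : Tendsto (fun κ : ℝ => (EE - Lam) * κ) atTop atTop := tendsto_id.const_mul_atTop h1
  have h3 := (Real.tendsto_exp_neg_atTop_nhds_zero.comp h2).const_mul (Real.exp th)
  rw [mul_zero] at h3
  exact h3

theorem eta_gt_one : ∀ᶠ κ : ℝ in atTop, ∀ s : ℝ → ℝ, Sol κ (AA κ) s → 1 < eta κ s (cc * κ) := by
  set b : ℝ := 1 - 2 / 3 * (2 * Real.log 2 - 1) with hb
  have hlim : Tendsto (fun κ : ℝ => (1 + th / κ) ^ κ * b - Real.exp th *
      Real.exp (-((EE - Lam) * κ))) atTop (𝓝 (Real.exp th * b - 0)) :=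
    ((Real.tendsto_one_add_div_rpow_exp th).mul_const b).sub tail_lim
  have hgt : 1 < Real.exp th * b - 0 := by
    have hl2 := Real.log_two_gt_d9
    have hl2' := Real.log_two_lt_d9
    have h1 := Real.quadratic_le_exp_of_nonneg (x := th) th_pos.le
    have h2 := th_bounds
    have h3 : (0.742 : ℝ) ≤ b := by rw [hb]; linarith
    have h4 : (1.406 : ℝ) ≤ Real.exp th := by nlinarith
    nlinarith
  filter_upwards [hlim.eventually (lt_mem_nhds hgt), eventually_ge_atTop 100] with κ h1 hκ s h
  have hκ0 : 0 < κ := by linarith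
  have hth := th_pos
  have hthb := th_bounds
  have hEE := EE_pos
  have hL := Lam_bounds
  have hE1 := EE_gt
  have hE2 := EE_lt
  have hcc := cc_gt
  have hu : 1 < cc * κ := by nlinarith
  set M : ℝ := κ / th + 1 with hM
  have hMp : 0 < M := by positivity
  have hcκ : cc * κ = EE * (κ / th) := by
    unfold cc
    ring
  have hq : 0 < κ / th := by positivity
  have hq2 : 100 ≤ κ / th := by
    rw [le_div_iff₀ hth]
    nlinarith
  have hu1 : 3 / 4 * M ≤ cc * κ := by
    rw [hcκ, hM]
    nlinarith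
  have hu2 : cc * κ ≤ 86 / 100 * M := by
    rw [hcκ, hM]
    nlinarith
  have h2 := h.moment_ge hκ hu1 hu2
  have h3 := h.eta_ge hu
  have h4 := h.tail_th (ρ := 1) le_rfl
  rw [one_mul] at h4
  have hu0 : 0 < cc * κ := by linarith
  have hup : 0 < (cc * κ) ^ (-κ) := Real.rpow_pos_of_pos hu0 _
  have h5 := mul_le_mul_of_nonneg_left h2 hup.le
  have e : (cc * κ) ^ (-κ) * (M ^ κ * Real.exp (-κ) * (Gn κ s 0 th * b)) =
      (1 + th / κ) ^ κ * b := by
    have e1 : M = (cc * κ) * (Real.exp (1 - Lam) * (1 + th / κ)) := by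
      rw [hcκ]
      have : EE * Real.exp (1 - Lam) = 1 := by
        unfold EE
        rw [← Real.exp_add]
        simp
      calc M = (κ / th) * (1 + th / κ) := by rw [hM]; field_simp
        _ = (EE * Real.exp (1 - Lam)) * ((κ / th) * (1 + th / κ)) := by rw [this, one_mul]
        _ = _ := by ring
    have h1p : 0 < 1 + th / κ := by positivity
    rw [h.G_th, e1, Real.mul_rpow hu0.le (by positivity), Real.mul_rpow (Real.exp_pos _).le h1p.le,
      ← Real.exp_mul]
    have e2 : (cc * κ) ^ (-κ) * (cc * κ) ^ κ = 1 := by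
      rw [← Real.rpow_add hu0]
      simp
    have e3 : Real.exp ((1 - Lam) * κ) * Real.exp (-κ) * Real.exp (κ * Lam) = 1 := by
      rw [← Real.exp_add, ← Real.exp_add]
      rw [show (1 - Lam) * κ + -κ + κ * Lam = 0 by ring, Real.exp_zero]
    calc _ = ((cc * κ) ^ (-κ) * (cc * κ) ^ κ) * (Real.exp ((1 - Lam) * κ) * Real.exp (-κ) *
          Real.exp (κ * Lam)) * ((1 + th / κ) ^ κ * b) := by ring
      _ = _ := by rw [e2, e3, one_mul, one_mul]
  rw [e] at h5
  linarith

theorem eta_lt_one {ρ : ℝ} (hρ : 1 < ρ) :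
    ∀ᶠ κ : ℝ in atTop, ∀ s : ℝ → ℝ, Sol κ (AA κ) s → eta κ s (ρ * cc * κ) < 1 := by
  have hlog : 0 < Real.log ρ := Real.log_pos hρ
  have hlim : Tendsto (fun κ : ℝ => 2 * (Real.exp th * Real.exp 2) *
      (κ ^ (1 : ℝ) * Real.exp (-Real.log ρ * κ))) atTop (𝓝 0) := by
    have := (tendsto_rpow_mul_exp_neg_mul_atTop_nhds_zero 1 (Real.log ρ) hlog).const_mul
      (2 * (Real.exp th * Real.exp 2))
    simpa using this
  filter_upwards [hlim.eventually (gt_mem_nhds one_pos), eventually_ge_atTop 100,
    tail_lim.eventually (gt_mem_nhds (by norm_num : (0 : ℝ) < 1 / 2))] with κ h1 hκ h2 s h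
  have hκ0 : 0 < κ := by linarith
  have hth := th_pos
  have hEE := EE_pos
  have hL := Lam_bounds
  have hcc := cc_gt
  have hρ0 : 0 < ρ := by linarith
  have hu : 1 < ρ * cc * κ := by
    have : 2 < ρ * cc := by nlinarith
    nlinarith
  have h3 := h.eta_le hu hth
  have h4 := h.tail_th hρ.le
  have hs : 1 / 2 < s (ρ * cc * κ - 1) := by linarith
  have h5 : 1 / s (ρ * cc * κ - 1) ≤ 2 := by
    rw [div_le_iff₀ (by linarith)]
    linarith
  rw [h.G_th] at h3
  have e1 : (κ + 1) / (Real.exp 1 * th * (ρ * cc * κ)) =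
      (1 + 1 / κ) * (ρ⁻¹ * Real.exp (-Lam)) := by
    have e2 : Real.exp 1 * th * (ρ * cc * κ) = ρ * κ * Real.exp Lam := by
      have : Real.exp Lam = Real.exp 1 * EE := by
        unfold EE
        rw [← Real.exp_add]
        congr 1
        ring
      rw [this]
      unfold cc
      field_simp
    rw [e2, Real.exp_neg]
    field_simp
  have h6 : ((κ + 1) / (Real.exp 1 * th * (ρ * cc * κ))) ^ (κ + 1) ≤
      Real.exp 2 * (Real.exp (-Real.log ρ * κ) * Real.exp (-(κ * Lam))) := by
    rw [e1, Real.mul_rpow (by positivity) (by positivity),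
      Real.mul_rpow (by positivity) (by positivity)]
    have h7 : (1 + 1 / κ) ^ (κ + 1) ≤ Real.exp 2 := by
      rw [Real.rpow_def_of_pos (by positivity)]
      apply Real.exp_le_exp.2
      have h8 : Real.log (1 + 1 / κ) ≤ 1 / κ := by
        have := Real.log_le_sub_one_of_pos (x := 1 + 1 / κ) (by positivity)
        linarith
      calc Real.log (1 + 1 / κ) * (κ + 1) ≤ 1 / κ * (κ + 1) :=
            mul_le_mul_of_nonneg_right h8 (by linarith)
        _ = 1 + 1 / κ := by field_simp
        _ ≤ 2 := by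
          have : 1 / κ ≤ 1 := by
            rw [div_le_one hκ0]
            linarith
          linarith
    have h9 : (ρ⁻¹) ^ (κ + 1) ≤ Real.exp (-Real.log ρ * κ) := by
      rw [Real.rpow_def_of_pos (by positivity), Real.log_inv]
      apply Real.exp_le_exp.2
      nlinarith
    have h10 : (Real.exp (-Lam)) ^ (κ + 1) ≤ Real.exp (-(κ * Lam)) := by
      rw [← Real.exp_mul]
      apply Real.exp_le_exp.2
      nlinarith
    exact mul_le_mul h7 (mul_le_mul h9 h10 (by positivity) (by positivity)) (by positivity)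
      (by positivity)
  have e5 : Real.exp (κ * Lam) * Real.exp (-(κ * Lam)) = 1 := by
    rw [← Real.exp_add]
    simp
  calc eta κ s (ρ * cc * κ) ≤ _ := h3
    _ ≤ 2 * (κ * (Real.exp th * Real.exp (κ * Lam)) *
        (Real.exp 2 * (Real.exp (-Real.log ρ * κ) * Real.exp (-(κ * Lam))))) := by
        refine mul_le_mul h5 ?_ (by positivity) (by norm_num)
        exact mul_le_mul_of_nonneg_left h6 (by positivity)
    _ = 2 * (Real.exp th * Real.exp 2) * (κ ^ (1 : ℝ) * Real.exp (-Real.log ρ * κ)) *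
        (Real.exp (κ * Lam) * Real.exp (-(κ * Lam))) := by
        rw [Real.rpow_one]
        ring
    _ < 1 := by rw [e5, mul_one]; exact h1

end Pool.Agent.N704.VK
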