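import Mathlib
import Pool.Agent.N704.VK.Mgf

/-!
# Existence and uniqueness of `σ_κ`
-/

set_option autoImplicit false

namespace Pool.Agent.N704.VK

open MeasureTheory Set Filter Topology

variable {κ A : ℝ} {s : ℝ → ℝ}

/-- The kernel of the integral operator. -/
noncomputable def gk (κ : ℝ) (f : ℝ → ℝ) (x : ℝ) : ℝ :=
  κ * (max x 1) ^ (-κ - 1) * f (x - 2)

theorem gk_cont (κ : ℝ) {f : ℝ → ℝ} (hf : Continuous f) : Continuous (gk κ f) := by
  refine Continuous.mul (continuous_const.mul ?_) (by fun_prop)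
  refine Continuous.rpow_const (by fun_prop) fun x => Or.inl ?_
  have : (1 : ℝ) ≤ max x 1 := le_max_right _ _
  linarith

/-- The integral operator. -/
noncomputable def Fop (κ A : ℝ) (f : ℝ → ℝ) (t : ℝ) : ℝ :=
  (max t 0) ^ κ * (A - ∫ x in (2 : ℝ)..(max t 2), gk κ f x)

theorem Fop_cont (hk : 1 ≤ κ) {f : ℝ → ℝ} (hf : Continuous f) : Continuous (Fop κ A f) := by
  refine Continuous.mul ?_ (continuous_const.sub ?_)
  · exact Continuous.rpow_const (by fun_prop) fun x => Or.inr (by linarith)
  · have h1 : Continuous fun y : ℝ => ∫ x in (2 : ℝ)..y, gk κ f x :=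
      intervalIntegral.continuous_primitive (fun a b => (gk_cont κ hf).intervalIntegrable a b) 2
    exact h1.comp (by fun_prop)

/-- The iterates. -/
noncomputable def sq (κ A : ℝ) : ℕ → ℝ → ℝ
  | 0 => fun _ => 0
  | n + 1 => Fop κ A (sq κ A n)

theorem sq_cont (hk : 1 ≤ κ) (n : ℕ) : Continuous (sq κ A n) := by
  induction n with
  | zero => exact continuous_const
  | succ n ih => exact Fop_cont hk ih

theorem Fop_nonpos (hk : 1 ≤ κ) (f : ℝ → ℝ) {t : ℝ} (ht : t ≤ 0) : Fop κ A f t = 0 := by
  unfold Fop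
  rw [max_eq_right ht, Real.zero_rpow (by linarith), zero_mul]

theorem sq_nonpos (hk : 1 ≤ κ) (n : ℕ) {t : ℝ} (ht : t ≤ 0) : sq κ A n t = 0 := by
  cases n with
  | zero => rfl
  | succ n => exact Fop_nonpos hk _ ht

theorem sq_succ (hk : 1 ≤ κ) (n : ℕ) : ∀ t : ℝ, t ≤ 2 * (n : ℝ) → sq κ A (n + 1) t = sq κ A n t := by
  induction n with
  | zero =>
    intro t ht
    have ht0 : t ≤ 0 := by simpa using ht
    rw [sq_nonpos hk _ ht0, sq_nonpos hk _ ht0]
  | succ n ih =>
    intro t ht
    show Fop κ A (sq κ A (n + 1)) t = Fop κ A (sq κ A n) t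
    unfold Fop
    congr 2
    refine intervalIntegral.integral_congr fun x hx => ?_
    rw [uIcc_of_le (le_max_right _ _)] at hx
    unfold gk
    rw [ih]
    have h1 := hx.2
    push_cast at ht
    have h2 : max t 2 ≤ 2 * (n : ℝ) + 2 := max_le (by linarith) (by
      have : (0 : ℝ) ≤ n := Nat.cast_nonneg n
      linarith)
    linarith

theorem sq_stable (hk : 1 ≤ κ) {n m : ℕ} (hnm : n ≤ m) {t : ℝ} (ht : t ≤ 2 * (n : ℝ)) :
    sq κ A m t = sq κ A n t := by
  induction m, hnm using Nat.le_induction with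
  | base => rfl
  | succ m hm ih =>
    rw [sq_succ hk m t (ht.trans (by
      have : (n : ℝ) ≤ m := by exact_mod_cast hm
      linarith)), ih]

/-- The solution. -/
noncomputable def sol (κ A : ℝ) (t : ℝ) : ℝ := sq κ A ⌈t⌉₊ t

theorem sol_eq (hk : 1 ≤ κ) {n : ℕ} {t : ℝ} (ht : t ≤ 2 * (n : ℝ)) : sol κ A t = sq κ A n t := by
  unfold sol
  have h1 : t ≤ 2 * ((⌈t⌉₊ : ℕ) : ℝ) := by
    have h2 := Nat.le_ceil t
    have h3 : (0 : ℝ) ≤ ((⌈t⌉₊ : ℕ) : ℝ) := Nat.cast_nonneg _
    linarith
  rcases le_total n ⌈t⌉₊ with h | h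
  · exact sq_stable hk h ht
  · exact (sq_stable hk h h1).symm

theorem sol_isSol (hk : 1 ≤ κ) (hA : 0 < A) : Sol κ A (sol κ A) where
  hk := hk
  hA := hA
  nonpos := fun t ht => sq_nonpos hk _ ht
  cont := by
    rw [continuous_iff_continuousAt]
    intro t
    obtain ⟨n, hn⟩ := exists_nat_gt t
    have hn2 : t < 2 * (n : ℝ) := by
      rcases le_or_gt 0 t with h | h
      · linarith
      · have : (0 : ℝ) ≤ n := Nat.cast_nonneg n
        linarith
    refine (sq_cont (A := A) hk n).continuousAt.congr ?_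
    filter_upwards [Iio_mem_nhds hn2] with y hy
    exact (sol_eq hk (le_of_lt hy)).symm
  form := by
    intro t ht
    obtain ⟨n, hn⟩ := exists_nat_gt t
    have hn0 : (0 : ℝ) ≤ n := Nat.cast_nonneg n
    rw [sol_eq hk (n := n + 1) (by push_cast; linarith)]
    show Fop κ A (sq κ A n) t = _
    unfold Fop
    rw [max_eq_left ht.le]
    congr 2
    rcases le_or_gt t 2 with h2 | h2
    · rw [max_eq_right h2, intervalIntegral.integral_same]
      have e : ∫ x in (2 : ℝ)..t, κ * x ^ (-κ - 1) * sol κ A (x - 2) = ∫ x in (2 : ℝ)..t, (0 : ℝ) := by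
        refine intervalIntegral.integral_congr fun x hx => ?_
        rw [uIcc_of_ge h2] at hx
        have : sol κ A (x - 2) = 0 := sq_nonpos hk _ (by linarith [hx.2])
        simp [this]
      rw [e]
      simp
    · rw [max_eq_left h2.le]
      refine intervalIntegral.integral_congr fun x hx => ?_
      rw [uIcc_of_le h2.le] at hx
      show κ * (max x 1) ^ (-κ - 1) * sq κ A n (x - 2) = κ * x ^ (-κ - 1) * sol κ A (x - 2)
      rw [max_eq_left (by linarith [hx.1]), sol_eq hk (n := n) (by linarith [hx.2])]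

theorem sol_unique {s₁ s₂ : ℝ → ℝ} (h₁ : Sol κ A s₁) (h₂ : Sol κ A s₂) : s₁ = s₂ := by
  have key : ∀ n : ℕ, ∀ t : ℝ, t ≤ 2 * (n : ℝ) → s₁ t = s₂ t := by
    intro n
    induction n with
    | zero =>
      intro t ht
      have ht0 : t ≤ 0 := by simpa using ht
      rw [h₁.nonpos t ht0, h₂.nonpos t ht0]
    | succ n ih =>
      intro t ht
      rcases le_or_gt t 0 with h0 | h0
      · rw [h₁.nonpos t h0, h₂.nonpos t h0]
      · rw [h₁.form t h0, h₂.form t h0]
        congr 2
        refine intervalIntegral.integral_congr fun x hx => ?_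
        show κ * x ^ (-κ - 1) * s₁ (x - 2) = κ * x ^ (-κ - 1) * s₂ (x - 2)
        have hx2 : x - 2 ≤ 2 * (n : ℝ) := by
          push_cast at ht
          have h3 := hx.2
          have h4 : max 2 t ≤ 2 * (n : ℝ) + 2 := max_le (by
            have : (0 : ℝ) ≤ n := Nat.cast_nonneg n
            linarith) (by linarith)
          linarith
        rw [ih _ hx2]
  funext t
  obtain ⟨n, hn⟩ := exists_nat_gt t
  refine key n t ?_
  rcases le_or_gt 0 t with h | h
  · linarith
  · have : (0 : ℝ) ≤ n := Nat.cast_nonneg n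
    linarith

theorem AA_mul (κ u : ℝ) : u ^ κ / ((2 * Real.exp Real.eulerMascheroniConstant) ^ κ *
    Real.Gamma (κ + 1)) = AA κ * u ^ κ := by
  unfold AA
  ring

theorem Sol.isSigma (h : Sol κ (AA κ) s) : IsSigma κ s where
  cont := h.cont.continuousOn
  init := by
    intro u hu hu2
    rw [h.init hu hu2, AA_mul]
  deriv := by
    intro u hu
    have hu0 : 0 < u := by linarith
    have h1 := intervalIntegral.integral_hasDerivAt_right (g_int κ h.cont (a := 2) (b := u)
      (by norm_num) hu0)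
      ((g_cont κ h.cont).stronglyMeasurableAtFilter isOpen_Ioi u hu0)
      ((g_cont κ h.cont).continuousAt (Ioi_mem_nhds hu0))
    have h2 := h1.const_sub (AA κ)
    have h3 : HasDerivAt (fun t : ℝ => t ^ (-κ) * s t) (-(κ * u ^ (-κ - 1) * s (u - 2))) u := by
      refine h2.congr_of_eventuallyEq ?_
      filter_upwards [Ioi_mem_nhds hu0] with y hy
      have hy0 : 0 < y := hy
      rw [h.form y hy0, ← mul_assoc, ← Real.rpow_add hy0]
      simp
    refine h3.congr_deriv ?_
    ring

theorem IsSigma.sol {σ : ℝ → ℝ} (hk : 1 ≤ κ) (h : IsSigma κ σ) :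
    Sol κ (AA κ) (fun t => if 0 < t then σ t else 0) := by
  set s : ℝ → ℝ := fun t => if 0 < t then σ t else 0 with hs
  have hA : 0 < AA κ := by
    unfold AA
    have : 0 < Real.Gamma (κ + 1) := Real.Gamma_pos_of_pos (by linarith)
    positivity
  have hpos : ∀ t : ℝ, 0 < t → s t = σ t := fun t ht => by simp only [hs]; rw [if_pos ht]
  have hnon : ∀ t : ℝ, t ≤ 0 → s t = 0 := fun t ht => by
    simp only [hs]; rw [if_neg (not_lt.2 ht)]
  have hcont : Continuous s := by
    rw [continuous_iff_continuousAt]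
    intro t
    rcases lt_or_ge t 2 with h2 | h2
    · have hc : Continuous fun t : ℝ => AA κ * (max t 0) ^ κ :=
        continuous_const.mul (Continuous.rpow_const (by fun_prop) fun x => Or.inr (by linarith))
      refine hc.continuousAt.congr ?_
      filter_upwards [Iio_mem_nhds h2] with y hy
      have hy2 : y < 2 := hy
      rcases le_or_gt y 0 with h0 | h0
      · rw [hnon y h0, max_eq_right h0, Real.zero_rpow (by linarith), mul_zero]
      · rw [hpos y h0, h.init y h0 hy2.le, max_eq_left h0.le, AA_mul]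
    · have ht0 : 0 < t := by linarith
      refine (h.cont.continuousAt (Ioi_mem_nhds ht0)).congr ?_
      filter_upwards [Ioi_mem_nhds ht0] with y hy
      exact (hpos y hy).symm
  refine ⟨hk, hA, hnon, hcont, ?_⟩
  intro t ht
  have hpw : ∀ y : ℝ, 0 < y → y ^ κ * y ^ (-κ) = 1 := by
    intro y hy
    rw [← Real.rpow_add hy]
    simp
  rcases le_or_gt t 2 with h2 | h2
  · have e : ∫ x in (2 : ℝ)..t, κ * x ^ (-κ - 1) * s (x - 2) = ∫ x in (2 : ℝ)..t, (0 : ℝ) := by
      refine intervalIntegral.integral_congr fun x hx => ?_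
      rw [uIcc_of_ge h2] at hx
      have : s (x - 2) = 0 := hnon _ (by linarith [hx.2])
      simp [this]
    rw [e, hpos t ht, h.init t ht h2, AA_mul]
    simp
    ring
  · have h1 : ∫ x in (2 : ℝ)..t, -(κ * x ^ (-κ - 1) * s (x - 2)) =
        t ^ (-κ) * s t - (2 : ℝ) ^ (-κ) * s 2 := by
      refine intervalIntegral.integral_eq_sub_of_hasDerivAt_of_le
        (f := fun x : ℝ => x ^ (-κ) * s x) h2.le ?_ ?_ ?_
      · refine ContinuousOn.mul ?_ hcont.continuousOn
        exact ContinuousOn.rpow_const continuousOn_id fun x hx => Or.inl (ne_of_gt (by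
          have := hx.1
          show (0 : ℝ) < x
          linarith))
      · intro x hx
        have hx2 : 2 < x := hx.1
        have h3 := h.deriv x hx2
        have h4 : HasDerivAt (fun x : ℝ => x ^ (-κ) * s x) (-κ * x ^ (-κ - 1) * σ (x - 2)) x := by
          refine h3.congr_of_eventuallyEq ?_
          filter_upwards [Ioi_mem_nhds (by linarith : (0 : ℝ) < x)] with y hy
          rw [hpos y hy]
        refine h4.congr_deriv ?_
        rw [hpos (x - 2) (by linarith)]
        ring
      · exact (g_int κ hcont (by norm_num) (by linarith)).neg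
    rw [intervalIntegral.integral_neg] at h1
    have h5 : (2 : ℝ) ^ (-κ) * s 2 = AA κ := by
      rw [hpos 2 (by norm_num), h.init 2 (by norm_num) le_rfl, AA_mul]
      have := hpw 2 (by norm_num)
      calc (2 : ℝ) ^ (-κ) * (AA κ * 2 ^ κ) = AA κ * (2 ^ κ * 2 ^ (-κ)) := by ring
        _ = _ := by rw [this, mul_one]
    rw [h5] at h1
    have h6 : AA κ - ∫ x in (2 : ℝ)..t, κ * x ^ (-κ - 1) * s (x - 2) = t ^ (-κ) * s t := by
      linarith
    rw [h6, ← mul_assoc, hpw t ht, one_mul]

end Pool.Agent.N704.VK
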